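import Pool.Agent.H313R3.TK.K

/-!
# One-sided criteria for multiplicity at most `k`
-/

open Complex MeasureTheory Filter Topology Set Metric

set_option linter.unusedSectionVars false
set_option linter.unusedVariables false
set_option autoImplicit false

namespace H313.TK

noncomputable section

theorem zeta_an {ρ : ℂ} (h1 : ρ.re < 1) : AnalyticAt ℂ riemannZeta ρ := by
  have hne : ρ ≠ 1 := by rintro rfl; simp at h1
  rw [Complex.analyticAt_iff_eventually_differentiableAt]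
  filter_upwards [isOpen_ne.mem_nhds hne] with z hz
  exact differentiableAt_riemannZeta hz

theorem order_one {ρ : ℂ} (hz : riemannZeta ρ = 0) (h1 : ρ.re < 1) :
    ((1 : ℕ) : ℕ∞) ≤ analyticOrderAt riemannZeta ρ := by
  have h3 : analyticOrderAt riemannZeta ρ ≠ 0 := fun h => ((zeta_an h1).analyticOrderAt_eq_zero.1 h) hz
  exact ENat.one_le_iff_ne_zero.2 h3

theorem log_pow_lt (c a : ℝ) (hc : 0 < c) (ha : 0 < a) (k : ℕ) :
    ∀ᶠ x : ℝ in atTop, (Real.log x) ^ k < c * x ^ a := by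
  have h3 := isLittleO_log_rpow_rpow_atTop (s := a) (k : ℝ) ha
  have h4 := h3.def (show 0 < c / 2 by positivity)
  filter_upwards [h4, eventually_gt_atTop 1] with x hx hx1
  have hx0 : 0 < x := by linarith
  have hl0 : 0 < Real.log x := Real.log_pos hx1
  rw [Real.rpow_natCast, Real.norm_eq_abs, Real.norm_eq_abs, abs_of_pos (pow_pos hl0 _),
    abs_of_pos (Real.rpow_pos_of_pos hx0 _)] at hx
  have h7 : 0 < c * x ^ a := by
    have := Real.rpow_pos_of_pos hx0 a
    positivity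
  linarith

/-- mean square criterion -/
theorem weak_m (s : ℝ) (hs : s = 1 ∨ s = -1) (k : ℕ) (hk : 1 ≤ k)
    (h : ∀ ε : ℝ, 0 < ε → ∃ᶠ x : ℝ in atTop,
      ∫ y in x..(x * Real.log x), (max (s * MM y) 0 / y) ^ 2 ≤ ε * (Real.log x) ^ (2 * k))
    (ρ : ℂ) (hz : riemannZeta ρ = 0) (h0 : 0 < ρ.re) (h1 : ρ.re < 1) :
    ρ.re = 1 / 2 ∧ analyticOrderAt riemannZeta ρ ≤ k := by
  have key : ∀ ρ : ℂ, riemannZeta ρ = 0 → ρ.re < 1 → ρ.re ≤ 1 / 2 := by
    intro ρ hz h1
    by_contra hcon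
    push Not at hcon
    obtain ⟨c, hc, hev⟩ := sq_low1 ρ hz hcon.le h1
    have hgrow := log_pow_lt c (2 * ρ.re - 1) hc (by linarith) (2 * k)
    obtain ⟨x, hx1, hx2, hx3⟩ := ((h 1 one_pos).and_eventually (hev.and hgrow)).exists
    have := hx2 s hs
    linarith
  have hle := key ρ hz h1
  have hge := key (1 - ρ) (refl_zero ρ hz h0 h1) (by simp; linarith)
  have hre : ρ.re = 1 / 2 := by
    simp at hge
    linarith
  refine ⟨hre, ?_⟩
  by_contra hcon
  push Not at hcon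
  have hm : ((k + 1 : ℕ) : ℕ∞) ≤ analyticOrderAt riemannZeta ρ := by
    push_cast
    exact Order.add_one_le_of_lt hcon
  obtain ⟨c, hc, hev⟩ := sq_low_m ρ hre.ge h1 (k + 1) (by omega) hm
  obtain ⟨x, hx1, hx2, hx3⟩ := ((h (c / 2) (by positivity)).and_eventually (hev.and (eventually_gt_atTop (1:ℝ)))).exists
  have h5 := hx2 s hs
  rw [hre, Nat.add_sub_cancel] at h5
  norm_num at h5
  have h6 : 0 < Real.log x := Real.log_pos hx3
  have h7 : 0 < c * Real.log x ^ (2 * k) := by positivity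
  linarith

/-- supremum criterion -/
theorem sup_m (s : ℝ) (hs : s = 1 ∨ s = -1) (k : ℕ) (hk : 1 ≤ k)
    (h : ∀ ε : ℝ, 0 < ε → ∃ᶠ x : ℝ in atTop, ∀ y ∈ Icc x (x * Real.log x),
      s * MM y ≤ ε * (Real.sqrt y * Real.log y ^ k))
    (ρ : ℂ) (hz : riemannZeta ρ = 0) (h0 : 0 < ρ.re) (h1 : ρ.re < 1) :
    ρ.re = 1 / 2 ∧ analyticOrderAt riemannZeta ρ ≤ k := by
  have key : ∀ ρ : ℂ, riemannZeta ρ = 0 → ρ.re < 1 → ρ.re ≤ 1 / 2 := by
    intro ρ hz h1
    by_contra hcon
    push Not at hcon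
    obtain ⟨c, hc, hev⟩ := signs ρ hz hcon.le h1
    obtain ⟨Y, hY⟩ := eventually_atTop.mp (log_pow_lt c (ρ.re - 1 / 2) hc (by linarith) k)
    obtain ⟨x, hx1, hx2, hx3, hx4⟩ := ((h 1 one_pos).and_eventually (hev.and
      ((eventually_ge_atTop Y).and (eventually_ge_atTop 1)))).exists
    obtain ⟨y, hy, hy2⟩ := hx2 s hs
    have h5 := hx1 y hy
    have hy0 : 0 < y := by linarith [hy.1]
    have h6 := hY y (hx3.trans hy.1)
    have h7 : Real.sqrt y * y ^ (ρ.re - 1 / 2) = y ^ ρ.re := by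
      rw [Real.sqrt_eq_rpow, ← Real.rpow_add hy0]
      congr 1
      ring
    have h8 := Real.sqrt_pos.2 hy0
    have h9 : Real.sqrt y * Real.log y ^ k < c * y ^ ρ.re := by
      calc Real.sqrt y * Real.log y ^ k < Real.sqrt y * (c * y ^ (ρ.re - 1 / 2)) := mul_lt_mul_of_pos_left h6 h8
        _ = c * (Real.sqrt y * y ^ (ρ.re - 1 / 2)) := by ring
        _ = _ := by rw [h7]
    linarith
  have hle := key ρ hz h1
  have hge := key (1 - ρ) (refl_zero ρ hz h0 h1) (by simp; linarith)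
  have hre : ρ.re = 1 / 2 := by
    simp at hge
    linarith
  refine ⟨hre, ?_⟩
  by_contra hcon
  push Not at hcon
  have hm : ((k + 1 : ℕ) : ℕ∞) ≤ analyticOrderAt riemannZeta ρ := by
    push_cast
    exact Order.add_one_le_of_lt hcon
  obtain ⟨c, hc, hev⟩ := signs_m ρ hre.ge h1 (k + 1) (by omega) hm
  obtain ⟨x, hx1, hx2, hx3⟩ := ((h (c / 2) (by positivity)).and_eventually (hev.and (eventually_gt_atTop (1:ℝ)))).exists
  obtain ⟨y, hy, hy2⟩ := hx2 s hs
  have h5 := hx1 y hy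
  have hy1 : 1 < y := hx3.trans_le hy.1
  have h6 : 0 < Real.log y := Real.log_pos hy1
  have h7 : 0 < Real.sqrt y := Real.sqrt_pos.mpr (by linarith)
  rw [hre, ← Real.sqrt_eq_rpow, Nat.add_sub_cancel] at hy2
  have h8 : 0 < c * (Real.sqrt y * Real.log y ^ k) := by positivity
  linarith

end

end H313.TK
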