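import Pool.Agent.H313R3.TK.B

/-!
# Kernels of the form `∑ g(v - log n)` and the Mertens function
-/

open Complex MeasureTheory Filter Topology Set

set_option linter.unusedSectionVars false
set_option autoImplicit false

namespace H313.TK

noncomputable section

/-- Mertens function -/
def MM (y : ℝ) : ℝ := ∑ n ∈ Finset.Icc 1 ⌊y⌋₊, ((ArithmeticFunction.moebius n : ℤ) : ℝ)

/-- the Mertens function, exponential scale -/
def mm (u : ℝ) : ℝ := MM (Real.exp u)

theorem MM_lt_one {y : ℝ} (h : y < 1) : MM y = 0 := by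
  unfold MM
  rw [Nat.floor_eq_zero.2 h]
  simp

theorem abs_MM_le {y : ℝ} (h : 0 ≤ y) : |MM y| ≤ y := by
  unfold MM
  refine (Finset.abs_sum_le_sum_abs _ _).trans ?_
  have h1 : ∀ n ∈ Finset.Icc 1 ⌊y⌋₊, |((ArithmeticFunction.moebius n : ℤ) : ℝ)| ≤ 1 := by
    intro n _
    rw [← Int.cast_abs]
    exact_mod_cast ArithmeticFunction.abs_moebius_le_one
  refine (Finset.sum_le_sum h1).trans ?_
  rw [Finset.sum_const, Nat.card_Icc]
  simp
  exact Nat.floor_le h

theorem MM_meas : Measurable MM := by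
  have e : MM = (fun m : ℕ => ∑ k ∈ Finset.Icc 1 m, ((ArithmeticFunction.moebius k : ℤ) : ℝ)) ∘ (fun y : ℝ => ⌊y⌋₊) := rfl
  rw [e]
  exact (measurable_of_countable _).comp Nat.measurable_floor

theorem mm_meas : Measurable mm := MM_meas.comp Real.measurable_exp

theorem mm_neg {u : ℝ} (h : u < 0) : mm u = 0 := MM_lt_one (by rwa [Real.exp_lt_one_iff])

theorem abs_mm_le (u : ℝ) : |mm u| ≤ Real.exp u := abs_MM_le (Real.exp_pos u).le

theorem MM_hasSum (w : ℝ) (hw : 0 ≤ w) :
    HasSum (fun n : ℕ => MM (w / ((n : ℝ) + 1))) (if 1 ≤ w then 1 else 0) := by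
  set N := ⌊w⌋₊ with hN
  have hz : ∀ n ∉ Finset.range N, MM (w / ((n : ℝ) + 1)) = 0 := by
    intro n hn
    rw [Finset.mem_range, not_lt] at hn
    apply MM_lt_one
    rw [div_lt_one (by positivity)]
    have h1 := Nat.lt_floor_add_one w
    have h2 : (⌊w⌋₊ : ℝ) ≤ n := by exact_mod_cast hn
    linarith
  have h1 : HasSum (fun n : ℕ => MM (w / ((n : ℝ) + 1))) (∑ n ∈ Finset.range N, MM (w / ((n : ℝ) + 1))) :=
    hasSum_sum_of_ne_finset_zero hz
  have h2 : ∑ n ∈ Finset.range N, MM (w / ((n : ℝ) + 1)) = if 1 ≤ w then 1 else 0 := by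
    have h3 : ∀ n ∈ Finset.range N, MM (w / ((n : ℝ) + 1)) =
        ∑ m ∈ Finset.Ioc 0 (N / (n + 1)), ((ArithmeticFunction.moebius m : ℤ) : ℝ) := by
      intro n _
      unfold MM
      have h4 : ⌊w / ((n : ℝ) + 1)⌋₊ = N / (n + 1) := by
        have := Nat.floor_div_natCast w (n + 1)
        push_cast at this
        exact this
      rw [h4]
      rfl
    rw [Finset.sum_congr rfl h3]
    have h5 := ArithmeticFunction.sum_Ioc_mul_eq_sum_sum (R := ℝ)
      ((ArithmeticFunction.zeta : ArithmeticFunction ℕ) : ArithmeticFunction ℝ)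
      ((ArithmeticFunction.moebius : ArithmeticFunction ℤ) : ArithmeticFunction ℝ) N
    rw [ArithmeticFunction.coe_zeta_mul_coe_moebius] at h5
    have h6 : ∑ n ∈ Finset.range N, ∑ m ∈ Finset.Ioc 0 (N / (n + 1)), ((ArithmeticFunction.moebius m : ℤ) : ℝ) =
        ∑ n ∈ Finset.Ioc 0 N, (((ArithmeticFunction.zeta : ArithmeticFunction ℕ) : ArithmeticFunction ℝ) n) *
          ∑ m ∈ Finset.Ioc 0 (N / n), (((ArithmeticFunction.moebius : ArithmeticFunction ℤ) : ArithmeticFunction ℝ) m) := by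
      rw [Finset.range_eq_Ico, Finset.sum_Ico_add' (fun n => ∑ m ∈ Finset.Ioc 0 (N / n), ((ArithmeticFunction.moebius m : ℤ) : ℝ)) 0 N 1]
      have h7 : Finset.Ico (0 + 1) (N + 1) = Finset.Ioc 0 N := by
        ext k
        simp only [Finset.mem_Ico, Finset.mem_Ioc]
        omega
      rw [h7]
      refine Finset.sum_congr rfl fun n hn => ?_
      rw [Finset.mem_Ioc] at hn
      have h8 : (((ArithmeticFunction.zeta : ArithmeticFunction ℕ) : ArithmeticFunction ℝ) n) = 1 := by
        rw [ArithmeticFunction.natCoe_apply, ArithmeticFunction.zeta_apply, if_neg (by omega)]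
        simp
      rw [h8, one_mul]
      rfl
    rw [h6, ← h5]
    by_cases h : 1 ≤ w
    · rw [if_pos h]
      have h9 : 1 ≤ N := Nat.le_floor (by simpa using h)
      rw [Finset.sum_eq_single 1]
      · simp
      · intro b _ hb
        rw [ArithmeticFunction.one_apply_ne hb]
      · intro h10
        exact absurd (Finset.mem_Ioc.2 ⟨by omega, h9⟩) h10
    · rw [if_neg h]
      have h9 : N = 0 := Nat.floor_eq_zero.2 (not_le.1 h)
      rw [h9]
      simp
  rwa [h2] at h1

/-- the class of building blocks -/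
structure QQ (g : ℝ → ℂ) : Prop where
  cont : Continuous g
  bd : ∀ T : ℝ, ∃ C : ℝ, 0 ≤ C ∧ ∀ z ≤ T, ‖g z‖ ≤ C * Real.exp (2 * z)

/-- the sum over `n` -/
def Sg (g : ℝ → ℂ) (v : ℝ) : ℂ := ∑' n : ℕ, g (v - Real.log ((n : ℝ) + 1))

theorem sum_sq : Summable (fun n : ℕ => 1 / ((n : ℝ) + 1) ^ 2) := by
  have := (Real.summable_one_div_nat_pow (p := 2)).2 (by norm_num)
  have h := (summable_nat_add_iff 1).2 this
  refine h.congr fun n => ?_
  push_cast
  rfl

theorem log_n (n : ℕ) : 0 ≤ Real.log ((n : ℝ) + 1) := Real.log_nonneg (by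
  have : (0:ℝ) ≤ n := Nat.cast_nonneg n
  linarith)

theorem exp_shift (c v : ℝ) (n : ℕ) : Real.exp (c * (v - Real.log ((n : ℝ) + 1))) =
    Real.exp (c * v) * ((n : ℝ) + 1) ^ (-c) := by
  rw [Real.rpow_def_of_pos (by positivity), ← Real.exp_add]
  congr 1
  ring

theorem exp_shift2 (v : ℝ) (n : ℕ) : Real.exp (2 * (v - Real.log ((n : ℝ) + 1))) =
    Real.exp (2 * v) * (1 / ((n : ℝ) + 1) ^ 2) := by
  rw [mul_sub, Real.exp_sub, show 2 * Real.log ((n : ℝ) + 1) = ((2 : ℕ) : ℝ) * Real.log ((n : ℝ) + 1) by norm_num,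
    Real.exp_nat_mul, Real.exp_log (by positivity)]
  ring

theorem QQ.term {g : ℝ → ℂ} (hg : QQ g) (T : ℝ) : ∃ C : ℝ, 0 ≤ C ∧ ∀ v ≤ T, ∀ n : ℕ,
    ‖g (v - Real.log ((n : ℝ) + 1))‖ ≤ C * Real.exp (2 * v) * (1 / ((n : ℝ) + 1) ^ 2) := by
  obtain ⟨C, hC, hb⟩ := hg.bd T
  refine ⟨C, hC, fun v hv n => ?_⟩
  have := hb (v - Real.log ((n : ℝ) + 1)) (by linarith [log_n n])
  rw [exp_shift2, ← mul_assoc] at this
  exact this

theorem QQ.summable {g : ℝ → ℂ} (hg : QQ g) (v : ℝ) : Summable (fun n : ℕ => g (v - Real.log ((n : ℝ) + 1))) := by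
  obtain ⟨C, hC, hb⟩ := hg.term v
  exact Summable.of_norm_bounded (sum_sq.mul_left _) fun n => hb v le_rfl n

/-- integrability of the twisted function on half lines -/
theorem QQ.int {g : ℝ → ℂ} (hg : QQ g) (ρ : ℂ) (hρ : ρ.re < 2) (v : ℝ) :
    IntegrableOn (fun z : ℝ => cexp (-ρ * z) * g z) (Iic v) := by
  obtain ⟨C, hC, hb⟩ := hg.bd v
  have hc := hg.cont
  refine Integrable.mono' ((integrableOn_exp_mul_Iic (sub_pos.2 hρ) v).const_mul C) ?_ ?_
  · exact (by fun_prop : Continuous fun z : ℝ => cexp (-ρ * z) * g z).aestronglyMeasurable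
  · refine (ae_restrict_iff' measurableSet_Iic).2 (ae_of_all _ fun z hz => ?_)
    rw [norm_mul, norm_tw]
    calc Real.exp (-ρ.re * z) * ‖g z‖ ≤ Real.exp (-ρ.re * z) * (C * Real.exp (2 * z)) :=
          mul_le_mul_of_nonneg_left (hb z hz) (Real.exp_pos _).le
      _ = C * (Real.exp (-ρ.re * z) * Real.exp (2 * z)) := by ring
      _ = _ := by rw [← Real.exp_add]; congr 2; ring

theorem Ist_QQ {g : ℝ → ℂ} (hg : QQ g) (ρ : ℂ) (hρ : ρ.re < 2) : QQ (Ist ρ g) := by
  refine ⟨Ist_cont hg.cont (hg.int ρ hρ), fun T => ?_⟩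
  obtain ⟨C, hC, hb⟩ := hg.bd T
  have h2 : 0 < 2 - ρ.re := by linarith
  refine ⟨C / (2 - ρ.re), by positivity, fun v hv => ?_⟩
  unfold Ist
  rw [norm_mul, norm_tw']
  have h1 : ‖∫ z in Iic v, cexp (-ρ * z) * g z‖ ≤ ∫ z in Iic v, C * Real.exp ((2 - ρ.re) * z) := by
    refine norm_integral_le_of_norm_le ((integrableOn_exp_mul_Iic h2 v).const_mul C) ?_
    refine (ae_restrict_iff' measurableSet_Iic).2 (ae_of_all _ fun z hz => ?_)
    rw [norm_mul, norm_tw]
    calc Real.exp (-ρ.re * z) * ‖g z‖ ≤ Real.exp (-ρ.re * z) * (C * Real.exp (2 * z)) :=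
          mul_le_mul_of_nonneg_left (hb z (le_trans hz hv)) (Real.exp_pos _).le
      _ = C * (Real.exp (-ρ.re * z) * Real.exp (2 * z)) := by ring
      _ = _ := by rw [← Real.exp_add]; congr 2; ring
  rw [integral_const_mul, integral_exp_mul_Iic h2] at h1
  calc Real.exp (ρ.re * v) * ‖∫ z in Iic v, cexp (-ρ * z) * g z‖
      ≤ Real.exp (ρ.re * v) * (C * (Real.exp ((2 - ρ.re) * v) / (2 - ρ.re))) :=
        mul_le_mul_of_nonneg_left h1 (Real.exp_pos _).le
    _ = C / (2 - ρ.re) * (Real.exp (ρ.re * v) * Real.exp ((2 - ρ.re) * v)) := by ring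
    _ = _ := by rw [← Real.exp_add]; congr 2; ring

theorem Iic_shift (f : ℝ → ℂ) (v c : ℝ) : ∫ z in Iic v, f (z - c) = ∫ z in Iic (v - c), f z := by
  rw [← integral_indicator measurableSet_Iic, ← integral_indicator measurableSet_Iic,
    ← integral_sub_right_eq_self (fun z => (Iic (v - c)).indicator f z) c]
  refine integral_congr_ae (ae_of_all _ fun z => ?_)
  simp only
  by_cases h : z ≤ v
  · rw [indicator_of_mem (show z ∈ Iic v from h), indicator_of_mem (show z - c ∈ Iic (v - c) by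
      show z - c ≤ v - c
      linarith)]
  · rw [indicator_of_notMem (show z ∉ Iic v from h), indicator_of_notMem (show z - c ∉ Iic (v - c) by
      show ¬ (z - c ≤ v - c)
      intro h2
      exact h (by linarith))]

/-- the operator commutes with the sum -/
theorem Sg_Ist {g : ℝ → ℂ} (hg : QQ g) (ρ : ℂ) (hρ : ρ.re < 2) (v : ℝ) : Ist ρ (Sg g) v = Sg (Ist ρ g) v := by
  obtain ⟨C, hC, hb⟩ := hg.term v
  have hc := hg.cont
  have h2 : 0 < 2 - ρ.re := by linarith
  set F : ℕ → ℝ → ℂ := fun n z => cexp (-ρ * z) * g (z - Real.log ((n : ℝ) + 1)) with hF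
  have hFb : ∀ n : ℕ, ∀ z ≤ v, ‖F n z‖ ≤ C * (1 / ((n : ℝ) + 1) ^ 2) * Real.exp ((2 - ρ.re) * z) := by
    intro n z hz
    simp only [hF]
    rw [norm_mul, norm_tw]
    calc Real.exp (-ρ.re * z) * ‖g (z - Real.log ((n : ℝ) + 1))‖ ≤
          Real.exp (-ρ.re * z) * (C * Real.exp (2 * z) * (1 / ((n : ℝ) + 1) ^ 2)) :=
          mul_le_mul_of_nonneg_left (hb z hz n) (Real.exp_pos _).le
      _ = C * (1 / ((n : ℝ) + 1) ^ 2) * (Real.exp (-ρ.re * z) * Real.exp (2 * z)) := by ring
      _ = _ := by rw [← Real.exp_add]; congr 2; ring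
  have hFc : ∀ n, Continuous (F n) := fun n => by simp only [hF]; fun_prop
  have hFi : ∀ n, IntegrableOn (F n) (Iic v) := by
    intro n
    refine Integrable.mono' ((integrableOn_exp_mul_Iic h2 v).const_mul (C * (1 / ((n : ℝ) + 1) ^ 2))) ?_ ?_
    · exact (hFc n).aestronglyMeasurable
    · exact (ae_restrict_iff' measurableSet_Iic).2 (ae_of_all _ fun z hz => hFb n z hz)
  have hFs : Summable (fun n => ∫ z in Iic v, ‖F n z‖) := by
    refine Summable.of_nonneg_of_le (fun n => integral_nonneg fun z => norm_nonneg _) (fun n => ?_)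
      (sum_sq.mul_left (C * (Real.exp ((2 - ρ.re) * v) / (2 - ρ.re))))
    have h1 : ∫ z in Iic v, ‖F n z‖ ≤ ∫ z in Iic v, C * (1 / ((n : ℝ) + 1) ^ 2) * Real.exp ((2 - ρ.re) * z) := by
      refine setIntegral_mono_on (hFi n).norm ((integrableOn_exp_mul_Iic h2 v).const_mul _) measurableSet_Iic
        fun z hz => hFb n z hz
    rw [integral_const_mul, integral_exp_mul_Iic h2] at h1
    refine h1.trans (le_of_eq ?_)
    ring
  have key := hasSum_integral_of_summable_integral_norm hFi hFs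
  have e1 : ∫ z in Iic v, ∑' n, F n z = ∫ z in Iic v, cexp (-ρ * z) * Sg g z := by
    refine integral_congr_ae (ae_of_all _ fun z => ?_)
    simp only [hF, Sg]
    exact tsum_mul_left
  rw [e1] at key
  unfold Ist Sg
  unfold Sg at key
  rw [← key.tsum_eq, ← tsum_mul_left]
  refine tsum_congr fun n => ?_
  have e2 : ∫ z in Iic v, F n z = cexp (-ρ * Real.log ((n : ℝ) + 1)) *
      ∫ z in Iic (v - Real.log ((n : ℝ) + 1)), cexp (-ρ * z) * g z := by
    rw [← Iic_shift (fun z : ℝ => cexp (-ρ * z) * g z), ← integral_const_mul]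
    refine integral_congr_ae (ae_of_all _ fun z => ?_)
    simp only [hF]
    rw [← mul_assoc, ← Complex.exp_add]
    congr 2
    push_cast
    ring
  rw [e2, ← mul_assoc, ← Complex.exp_add]
  congr 2
  push_cast
  ring

/-- **The Möbius identity.** -/
theorem moeb {g : ℝ → ℂ} (hg : QQ g) (t : ℝ) :
    ∫ v : ℝ, (mm (t - v) : ℂ) * Sg g v = ∫ z in Iic t, g z := by
  obtain ⟨C, hC, hb⟩ := hg.term t
  have hc := hg.cont
  have hm := mm_meas
  set F : ℕ → ℝ → ℂ := fun n v => (mm (t - v) : ℂ) * g (v - Real.log ((n : ℝ) + 1)) with hF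
  have hz : ∀ n v, t < v → F n v = 0 := by
    intro n v hv
    simp only [hF]
    rw [mm_neg (by linarith)]
    simp
  have hFb : ∀ n : ℕ, ∀ v : ℝ, ‖F n v‖ ≤ (Iic t).indicator (fun v => C * Real.exp t * (1 / ((n : ℝ) + 1) ^ 2) * Real.exp (1 * v)) v := by
    intro n v
    by_cases hv : v ≤ t
    · rw [indicator_of_mem (show v ∈ Iic t from hv)]
      simp only [hF]
      rw [norm_mul, Complex.norm_real, Real.norm_eq_abs]
      calc |mm (t - v)| * ‖g (v - Real.log ((n : ℝ) + 1))‖ ≤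
            Real.exp (t - v) * (C * Real.exp (2 * v) * (1 / ((n : ℝ) + 1) ^ 2)) :=
            mul_le_mul (abs_mm_le _) (hb v hv n) (norm_nonneg _) (Real.exp_pos _).le
        _ = C * (1 / ((n : ℝ) + 1) ^ 2) * (Real.exp (t - v) * Real.exp (2 * v)) := by ring
        _ = C * (1 / ((n : ℝ) + 1) ^ 2) * (Real.exp t * Real.exp (1 * v)) := by
            rw [← Real.exp_add, ← Real.exp_add]; congr 2; ring
        _ = _ := by ring
    · rw [hz n v (not_le.1 hv), norm_zero, indicator_of_notMem (show v ∉ Iic t from hv)]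
  have hFm : ∀ n, AEStronglyMeasurable (F n) volume := fun n => by
    simp only [hF]
    exact (by fun_prop : Measurable fun v => (mm (t - v) : ℂ) * g (v - Real.log ((n : ℝ) + 1))).aestronglyMeasurable
  have hdom : ∀ n : ℕ, Integrable ((Iic t).indicator (fun v => C * Real.exp t * (1 / ((n : ℝ) + 1) ^ 2) * Real.exp (1 * v))) := by
    intro n
    rw [integrable_indicator_iff measurableSet_Iic]
    exact (integrableOn_exp_mul_Iic one_pos t).const_mul _
  have hFi : ∀ n, Integrable (F n) := fun n => (hdom n).mono' (hFm n) (ae_of_all _ (hFb n))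
  have hFs : Summable (fun n => ∫ z, ‖F n z‖) := by
    refine Summable.of_nonneg_of_le (fun n => integral_nonneg fun z => norm_nonneg _) (fun n => ?_)
      (sum_sq.mul_left (C * Real.exp t * (Real.exp (1 * t) / 1)))
    have h1 := integral_mono (hFi n).norm (hdom n) (hFb n)
    rw [integral_indicator measurableSet_Iic, integral_const_mul, integral_exp_mul_Iic one_pos] at h1
    refine h1.trans (le_of_eq ?_)
    ring
  have key := hasSum_integral_of_summable_integral_norm hFi hFs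
  have e1 : ∫ v, ∑' n, F n v = ∫ v : ℝ, (mm (t - v) : ℂ) * Sg g v := by
    refine integral_congr_ae (ae_of_all _ fun z => ?_)
    simp only [hF, Sg]
    exact tsum_mul_left
  rw [e1] at key
  -- the translates
  set F' : ℕ → ℝ → ℂ := fun n z => (mm (t - z - Real.log ((n : ℝ) + 1)) : ℂ) * g z with hF'
  have hsh : ∀ n, F' n = fun z => F n (z + Real.log ((n : ℝ) + 1)) := by
    intro n
    funext z
    simp only [hF, hF']
    congr 2
    · congr 1
      ring
    · ring
  have hFi' : ∀ n, Integrable (F' n) := fun n => by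
    rw [hsh]
    exact (hFi n).comp_add_right _
  have hI' : ∀ n, ∫ z, F' n z = ∫ z, F n z := by
    intro n
    rw [hsh]
    exact integral_add_right_eq_self (F n) _
  have hIn' : ∀ n, ∫ z, ‖F' n z‖ = ∫ z, ‖F n z‖ := by
    intro n
    rw [hsh]
    exact integral_add_right_eq_self (fun z => ‖F n z‖) _
  have key' := hasSum_integral_of_summable_integral_norm hFi' (by simpa only [hIn'] using hFs)
  simp only [hI'] at key'
  rw [key.unique key', ← integral_indicator measurableSet_Iic]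
  refine integral_congr_ae (ae_of_all _ fun z => ?_)
  simp only [hF']
  have h5 := MM_hasSum (Real.exp (t - z)) (Real.exp_pos _).le
  have h6 : ∀ n : ℕ, mm (t - z - Real.log ((n : ℝ) + 1)) = MM (Real.exp (t - z) / ((n : ℝ) + 1)) := by
    intro n
    unfold mm
    rw [Real.exp_sub, Real.exp_log (by positivity)]
  simp_rw [h6]
  rw [tsum_mul_right, ← Complex.ofReal_tsum, h5.tsum_eq]
  by_cases h : z ≤ t
  · rw [indicator_of_mem (show z ∈ Iic t from h), if_pos (Real.one_le_exp (by linarith))]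
    simp
  · rw [indicator_of_notMem (show z ∉ Iic t from h), if_neg (by
      rw [not_le, Real.exp_lt_one_iff]
      push Not at h
      linarith)]
    simp

end

end H313.TK
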