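import Pool.Agent.H313R3.TK.C
import Pool.Agent.Helper240.ZU.G2b

/-!
# Transforms of the kernel
-/

open Complex MeasureTheory Filter Topology Set Metric

set_option linter.unusedSectionVars false
set_option linter.unusedVariables false
set_option autoImplicit false

namespace H313.TK

noncomputable section

/-- the building block -/
def qq (v : ℝ) : ℝ := P (Real.exp (-v))

theorem qq_cont : Continuous qq := by
  unfold qq P
  fun_prop

theorem qq_abs (v : ℝ) : |qq v| ≤ 48 * Real.exp (-(2 * |v|)) := by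
  unfold qq
  rcases le_total 0 v with hv | hv
  · refine (P_small _).trans (le_of_eq ?_)
    rw [abs_of_nonneg hv, ← Real.exp_nat_mul]
    congr 2
    push_cast
    try ring
  · refine (P_abs _).trans ?_
    rw [abs_of_nonpos hv]
    have h1 : Real.exp (-(2 * -v)) = 1 / (Real.exp (-v)) ^ 2 := by
      rw [← Real.exp_nat_mul, one_div, ← Real.exp_neg]
      congr 1
    rw [h1]
    set x := (Real.exp (-v)) ^ 2 with hx
    have hx0 : 0 < x := by positivity
    have h2 : Real.exp (-(Real.pi / 4) * x) ≤ 1 / (Real.pi / 4 * x) := by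
      rw [show -(Real.pi / 4) * x = -(Real.pi / 4 * x) by ring, Real.exp_neg, inv_eq_one_div]
      refine one_div_le_one_div_of_le (by positivity) ?_
      have := Real.add_one_le_exp (Real.pi / 4 * x)
      linarith
    have h3 : 1 / (Real.pi / 4 * x) ≤ 2 * (1 / x) := by
      rw [← one_div_mul_one_div]
      refine mul_le_mul_of_nonneg_right ?_ (by positivity)
      rw [div_le_iff₀ (by positivity)]
      have := Real.pi_gt_three
      linarith
    have h4 : 0 < 1 / x := by positivity
    linarith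

theorem qq_QQ : QQ (fun v => (qq v : ℂ)) := by
  refine ⟨Complex.continuous_ofReal.comp qq_cont, fun T => ⟨48, by norm_num, fun z _ => ?_⟩⟩
  rw [Complex.norm_real, Real.norm_eq_abs]
  refine (qq_abs z).trans (mul_le_mul_of_nonneg_left (Real.exp_le_exp.2 ?_) (by norm_num))
  have := neg_abs_le z
  linarith

theorem kp_hasSum (v : ℝ) : (kp v : ℂ) = Sg (fun v => (qq v : ℂ)) v := by
  unfold kp kk Sg qq
  rw [Complex.ofReal_tsum]
  refine tsum_congr fun n => ?_
  congr 2
  rw [neg_sub, Real.exp_sub, Real.exp_log (by positivity)]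

theorem Sg_cont {g : ℝ → ℂ} (hg : QQ g) : Continuous (Sg g) := by
  rw [continuous_iff_continuousAt]
  intro v
  obtain ⟨C, hC, hb⟩ := hg.term (v + 1)
  have h1 : ContinuousOn (Sg g) (Iio (v + 1)) := by
    refine continuousOn_tsum (u := fun n : ℕ => C * Real.exp (2 * (v + 1)) * (1 / ((n : ℝ) + 1) ^ 2)) ?_
      (sum_sq.mul_left _) ?_
    · intro n
      have := hg.cont
      exact (by fun_prop : Continuous fun v => g (v - Real.log ((n : ℝ) + 1))).continuousOn
    · intro n z hz
      refine (hb z (le_of_lt hz) n).trans ?_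
      refine mul_le_mul_of_nonneg_right (mul_le_mul_of_nonneg_left (Real.exp_le_exp.2 ?_) hC) (by positivity)
      have : z < v + 1 := hz
      linarith
  exact h1.continuousAt (Iio_mem_nhds (by linarith))

theorem C0_nonneg : 0 ≤ C0 := by
  unfold C0
  have : 0 ≤ ∑' n : ℕ, Real.exp (-(Real.pi / 4)) ^ n := tsum_nonneg fun n => by positivity
  linarith

theorem kp_nonneg (v : ℝ) : 0 ≤ kp v := le_trans (by have := W_pos v; positivity) (kp_bounds v).1

theorem kp_DK : DK (fun v => (kp v : ℂ)) := by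
  refine ⟨?_, C0, C0_nonneg, fun v => ?_⟩
  · simp_rw [kp_hasSum]
    exact Sg_cont qq_QQ
  · rw [Complex.norm_real, Real.norm_eq_abs, abs_of_nonneg (kp_nonneg v)]
    exact (kp_bounds v).2

/-- differentiation of transforms -/
theorem tr_diff {g : ℝ → ℂ} (hc : Continuous g) (C a : ℝ) (hC : 0 ≤ C) (hb : ∀ v, ‖g v‖ ≤ C * Real.exp (-(a * |v|)))
    (s : ℂ) (hs : |s.re| < a) :
    HasDerivAt (fun s : ℂ => ∫ v : ℝ, cexp (-s * v) * g v) (∫ v : ℝ, -(v : ℂ) * (cexp (-s * v) * g v)) s := by
  set ε : ℝ := (a - |s.re|) / 3 with hε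
  have hε0 : 0 < ε := by rw [hε]; linarith
  have hnorm : ∀ x : ℂ, |x.re| ≤ |s.re| + ε → ∀ v : ℝ, ‖cexp (-x * v) * g v‖ ≤ C * Real.exp (-(2 * ε * |v|)) := by
    intro x hx v
    rw [norm_mul, norm_tw]
    have h1 : Real.exp (-x.re * v) ≤ Real.exp ((|s.re| + ε) * |v|) := by
      refine Real.exp_le_exp.2 ?_
      calc -x.re * v ≤ |-x.re * v| := le_abs_self _
        _ = |x.re| * |v| := by rw [abs_mul, abs_neg]
        _ ≤ _ := mul_le_mul_of_nonneg_right hx (abs_nonneg _)
    calc Real.exp (-x.re * v) * ‖g v‖ ≤ Real.exp ((|s.re| + ε) * |v|) * (C * Real.exp (-(a * |v|))) :=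
          mul_le_mul h1 (hb v) (norm_nonneg _) (Real.exp_pos _).le
      _ = C * (Real.exp ((|s.re| + ε) * |v|) * Real.exp (-(a * |v|))) := by ring
      _ = _ := by
        rw [← Real.exp_add]
        congr 2
        rw [hε]; ring
  refine (hasDerivAt_integral_of_dominated_loc_of_deriv_le (μ := volume) (s := ball s ε)
    (F := fun (s : ℂ) (v : ℝ) => cexp (-s * v) * g v)
    (F' := fun (s : ℂ) (v : ℝ) => -(v : ℂ) * (cexp (-s * v) * g v))
    (bound := fun v : ℝ => C / ε * Real.exp (-(ε * |v|))) (ball_mem_nhds s hε0) ?_ ?_ ?_ ?_ ?_ ?_).2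
  · refine Eventually.of_forall fun x => ?_
    exact (by fun_prop : Continuous fun v : ℝ => cexp (-x * v) * g v).aestronglyMeasurable
  · refine ((int_exp_abs (2 * ε) (by positivity)).const_mul C).mono' ?_ (ae_of_all _ fun v => ?_)
    · exact (by fun_prop : Continuous fun v : ℝ => cexp (-s * v) * g v).aestronglyMeasurable
    · exact hnorm s (by linarith) v
  · exact (by fun_prop : Continuous fun v : ℝ => -(v : ℂ) * (cexp (-s * v) * g v)).aestronglyMeasurable
  · refine ae_of_all _ fun v x hx => ?_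
    have hx2 : |x.re| ≤ |s.re| + ε := by
      have h1 : |(x - s).re| ≤ ‖x - s‖ := Complex.abs_re_le_norm _
      rw [mem_ball, dist_eq_norm] at hx
      rw [Complex.sub_re] at h1
      have h2 : |x.re| ≤ |s.re| + |x.re - s.re| := by
        have := abs_add_le s.re (x.re - s.re)
        simpa using this
      linarith
    rw [norm_mul, norm_neg, Complex.norm_real, Real.norm_eq_abs]
    have h3 : |v| ≤ 1 / ε * Real.exp (ε * |v|) := by
      rw [one_div_mul_eq_div, le_div_iff₀ hε0]
      have := Real.add_one_le_exp (ε * |v|)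
      linarith
    calc |v| * ‖cexp (-x * v) * g v‖ ≤ (1 / ε * Real.exp (ε * |v|)) * (C * Real.exp (-(2 * ε * |v|))) :=
          mul_le_mul h3 (hnorm x hx2 v) (norm_nonneg _) (by positivity)
      _ = C / ε * (Real.exp (ε * |v|) * Real.exp (-(2 * ε * |v|))) := by ring
      _ = _ := by rw [← Real.exp_add]; congr 2; ring
  · exact (int_exp_abs ε hε0).const_mul _
  · refine ae_of_all _ fun v x _ => ?_
    have h1 : HasDerivAt (fun x : ℂ => -x * v) (-(v : ℂ)) x := by
      simpa using ((hasDerivAt_id x).neg.mul_const (v : ℂ))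
    refine ((h1.cexp).mul_const (g v)).congr_deriv ?_
    ring

/-- transform of the building block -/
def qh (s : ℂ) : ℂ := ∫ v : ℝ, cexp (-s * v) * (qq v : ℂ)

/-- transform of the kernel -/
def Kh (s : ℂ) : ℂ := ∫ v : ℝ, cexp (-s * v) * (kp v : ℂ)

theorem qq_bd (v : ℝ) : ‖(qq v : ℂ)‖ ≤ 48 * Real.exp (-(2 * |v|)) := by
  rw [Complex.norm_real, Real.norm_eq_abs]
  exact qq_abs v

theorem kp_bd (v : ℝ) : ‖(kp v : ℂ)‖ ≤ (C0 * 4) * Real.exp (-(3 * |v|)) := by
  rw [Complex.norm_real, Real.norm_eq_abs, abs_of_nonneg (kp_nonneg v)]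
  refine (kp_bounds v).2.trans ?_
  rw [mul_assoc]
  refine mul_le_mul_of_nonneg_left ?_ C0_nonneg
  have h1 := W_decay v
  have h2 : Real.exp (-(3 * |v|)) = Real.exp (-|v|) * Real.exp (-(2 * |v|)) := by
    rw [← Real.exp_add]; congr 1; ring
  rw [h2, ← mul_assoc]
  have h3 : W v = W v * Real.exp (2 * |v|) * Real.exp (-(2 * |v|)) := by
    rw [mul_assoc, ← Real.exp_add, add_neg_cancel, Real.exp_zero, mul_one]
  rw [h3]
  exact mul_le_mul_of_nonneg_right h1 (Real.exp_pos _).le

theorem qh_deriv (s : ℂ) (hs : |s.re| < 2) :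
    HasDerivAt qh (∫ v : ℝ, -(v : ℂ) * (cexp (-s * v) * (qq v : ℂ))) s :=
  tr_diff (Complex.continuous_ofReal.comp qq_cont) 48 2 (by norm_num) qq_bd s hs

theorem Kh_deriv (s : ℂ) (hs : |s.re| < 3) :
    HasDerivAt Kh (∫ v : ℝ, -(v : ℂ) * (cexp (-s * v) * (kp v : ℂ))) s :=
  tr_diff kp_DK.cont (C0 * 4) 3 (by have := C0_nonneg; positivity) kp_bd s hs

/-- the product formula -/
theorem Kh_zeta (s : ℂ) (h1 : 1 < s.re) (h2 : s.re < 2) : Kh s = riemannZeta s * qh s := by
  set F : ℕ → ℝ → ℂ := fun n v => cexp (-s * v) * (qq (v - Real.log ((n : ℝ) + 1)) : ℂ) with hF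
  set G : ℝ → ℂ := fun v => cexp (-s * v) * (qq v : ℂ) with hG
  have hGi : Integrable G := by
    refine ((int_exp_abs (2 - |s.re|) (by rw [abs_of_pos (by linarith)]; linarith)).const_mul 48).mono' ?_
      (ae_of_all _ fun v => ?_)
    · have := qq_cont
      exact (by fun_prop : Continuous fun v : ℝ => cexp (-s * v) * (qq v : ℂ)).aestronglyMeasurable
    · simp only [hG]
      rw [norm_mul, norm_tw]
      have h3 : Real.exp (-s.re * v) ≤ Real.exp (|s.re| * |v|) := by
        refine Real.exp_le_exp.2 ?_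
        calc -s.re * v ≤ |-s.re * v| := le_abs_self _
          _ = |s.re| * |v| := by rw [abs_mul, abs_neg]
      calc Real.exp (-s.re * v) * ‖(qq v : ℂ)‖ ≤ Real.exp (|s.re| * |v|) * (48 * Real.exp (-(2 * |v|))) :=
            mul_le_mul h3 (qq_bd v) (norm_nonneg _) (Real.exp_pos _).le
        _ = 48 * (Real.exp (|s.re| * |v|) * Real.exp (-(2 * |v|))) := by ring
        _ = _ := by rw [← Real.exp_add]; congr 2; ring
  have hFG : ∀ n, F n = fun v => (((n : ℂ) + 1) ^ (-s)) * G (v - Real.log ((n : ℝ) + 1)) := by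
    intro n
    funext v
    simp only [hF, hG]
    rw [← mul_assoc]
    congr 1
    have hn : ((n : ℂ) + 1) = ((((n : ℝ) + 1 : ℝ)) : ℂ) := by push_cast; rfl
    rw [hn, Complex.cpow_def_of_ne_zero (by
      rw [Complex.ofReal_ne_zero]; positivity), ← Complex.exp_add, ← Complex.ofReal_log (by positivity)]
    congr 1
    push_cast
    ring
  have hFi : ∀ n, Integrable (F n) := by
    intro n
    rw [hFG]
    exact (hGi.comp_sub_right _).const_mul _
  have hFI : ∀ n, ∫ v, F n v = (((n : ℂ) + 1) ^ (-s)) * qh s := by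
    intro n
    rw [hFG, integral_const_mul, integral_sub_right_eq_self G]
    rfl
  have hFn : ∀ n, ∫ v, ‖F n v‖ = ((n : ℝ) + 1) ^ (-s.re) * ∫ v, ‖G v‖ := by
    intro n
    rw [hFG]
    simp only [norm_mul]
    rw [integral_const_mul, integral_sub_right_eq_self (fun v => ‖G v‖)]
    congr 1
    have hn : ((n : ℂ) + 1) = ((((n : ℝ) + 1 : ℝ)) : ℂ) := by push_cast; rfl
    rw [hn, Complex.norm_cpow_eq_rpow_re_of_pos (by positivity)]
    simp
  have hFs : Summable (fun n => ∫ v, ‖F n v‖) := by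
    simp only [hFn]
    refine Summable.mul_right _ ?_
    have h3 : Summable (fun n : ℕ => (n : ℝ) ^ (-s.re)) := Real.summable_nat_rpow.2 (by linarith)
    have h4 := (summable_nat_add_iff 1).2 h3
    refine h4.congr fun n => ?_
    push_cast
    rfl
  have key := hasSum_integral_of_summable_integral_norm hFi hFs
  have e1 : ∫ v, ∑' n, F n v = Kh s := by
    unfold Kh
    refine integral_congr_ae (ae_of_all _ fun v => ?_)
    simp only [hF]
    rw [tsum_mul_left, kp_hasSum]
    rfl
  rw [e1] at key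
  simp only [hFI] at key
  rw [← key.tsum_eq, tsum_mul_right, zeta_eq_tsum_one_div_nat_add_one_cpow h1]
  congr 1
  refine tsum_congr fun n => ?_
  rw [Complex.cpow_neg, one_div]

open ZU.J_g2b in
/-- continuation -/
theorem Kh_FF (s : ℂ) (h0 : 0 < s.re) (h2 : s.re < 2) : (s - 1) * Kh s = FF s * qh s := by
  set U : Set ℂ := {s : ℂ | 0 < s.re ∧ s.re < 2} with hU
  have hUo : IsOpen U := (isOpen_lt continuous_const Complex.continuous_re).inter
    (isOpen_lt Complex.continuous_re continuous_const)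
  have hUc : IsPreconnected U := by
    refine Convex.isPreconnected ?_
    have c1 : Convex ℝ {s : ℂ | 0 < s.re} := convex_halfSpace_re_gt 0
    have c2 : Convex ℝ {s : ℂ | s.re < 2} := convex_halfSpace_re_lt 2
    exact c1.inter c2
  have hd1 : DifferentiableOn ℂ (fun s => (s - 1) * Kh s) U := by
    intro z hz
    have h3 : |z.re| < 3 := by rw [abs_of_pos hz.1]; linarith [hz.2]
    exact ((differentiableAt_id.sub_const 1).mul (Kh_deriv z h3).differentiableAt).differentiableWithinAt
  have hd2 : DifferentiableOn ℂ (fun s => FF s * qh s) U := by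
    intro z hz
    have h3 : |z.re| < 2 := by rw [abs_of_pos hz.1]; exact hz.2
    exact (FF_diff.differentiableAt.mul (qh_deriv z h3).differentiableAt).differentiableWithinAt
  have key := (hd1.analyticOnNhd hUo).eqOn_of_preconnected_of_eventuallyEq (hd2.analyticOnNhd hUo) hUc
    (z₀ := (3 / 2 : ℂ)) (by constructor <;> norm_num) (by
      have hV : {s : ℂ | 1 < s.re ∧ s.re < 2} ∈ 𝓝 (3 / 2 : ℂ) := by
        refine IsOpen.mem_nhds ((isOpen_lt continuous_const Complex.continuous_re).inter
          (isOpen_lt Complex.continuous_re continuous_const)) ?_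
        constructor <;> norm_num
      filter_upwards [hV] with z hz
      have hne : z ≠ 1 := by
        rintro rfl
        have := hz.1
        simp at this
      rw [Kh_zeta z hz.1 hz.2, FF_ne hne]
      ring)
  exact key ⟨h0, h2⟩

theorem Kh_eq (s : ℂ) (h0 : 0 < s.re) (h2 : s.re < 2) (h1 : s ≠ 1) : Kh s = riemannZeta s * qh s := by
  have h := Kh_FF s h0 h2
  rw [ZU.J_g2b.FF_ne h1, mul_assoc] at h
  exact mul_left_cancel₀ (sub_ne_zero.2 h1) h

theorem Kh_zero (ρ : ℂ) (hz : riemannZeta ρ = 0) (h0 : 0 < ρ.re) (h1 : ρ.re < 1) : Kh ρ = 0 := by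
  rw [Kh_eq ρ h0 (by linarith) (by rintro rfl; simp at h1), hz, zero_mul]

theorem Kh_double (ρ : ℂ) (hz : riemannZeta ρ = 0) (hz' : deriv riemannZeta ρ = 0) (h0 : 0 < ρ.re) (h1 : ρ.re < 1) :
    ∫ v : ℝ, (v : ℂ) * (cexp (-ρ * v) * (kp v : ℂ)) = 0 := by
  have hne : ρ ≠ 1 := by rintro rfl; simp at h1
  have d1 := Kh_deriv ρ (by rw [abs_of_pos h0]; linarith)
  have d2 := (differentiableAt_riemannZeta hne).hasDerivAt.mul (qh_deriv ρ (by rw [abs_of_pos h0]; linarith))
  have he : Kh =ᶠ[𝓝 ρ] fun s => riemannZeta s * qh s := by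
    have hV : {s : ℂ | 0 < s.re ∧ s.re < 1} ∈ 𝓝 ρ :=
      IsOpen.mem_nhds ((isOpen_lt continuous_const Complex.continuous_re).inter
        (isOpen_lt Complex.continuous_re continuous_const)) ⟨h0, h1⟩
    filter_upwards [hV] with z hz
    exact Kh_eq z hz.1 (by linarith [hz.2]) (by rintro rfl; have := hz.2; simp at this)
  have d3 := d2.congr_of_eventuallyEq he
  have h5 := d1.unique d3
  rw [hz, hz', zero_mul, zero_mul, zero_add] at h5
  simp_rw [neg_mul] at h5
  rw [integral_neg, neg_eq_zero] at h5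
  simpa only [neg_mul] using h5

end

end H313.TK
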