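import Pool.Agent.H313R3.TK.E

/-!
# Asymptotics of the twisted averages of the Mertens function
-/

open Complex MeasureTheory Filter Topology Set Metric

set_option linter.unusedSectionVars false
set_option linter.unusedVariables false
set_option autoImplicit false

namespace H313.TK

noncomputable section

/-- the building block, complex valued -/
def qc (v : ℝ) : ℂ := (qq v : ℂ)

/-- the kernel, complex valued -/
def kc (v : ℝ) : ℂ := (kp v : ℂ)

theorem qc_QQ : QQ qc := qq_QQ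

theorem kc_DK : DK kc := kp_DK

theorem kc_eq : kc = Sg qc := funext kp_hasSum

theorem QQ.int0 {g : ℝ → ℂ} (hg : QQ g) (v : ℝ) : IntegrableOn g (Iic v) := by
  have := hg.int 0 (by norm_num) v
  refine this.congr_fun (fun z _ => ?_) measurableSet_Iic
  simp

/-- first asymptotics -/
theorem q1_asy (ρ : ℂ) (h0 : 0 < ρ.re) (h1 : ρ.re < 1) (z : ℝ) (hz : 0 ≤ z) :
    ‖cexp (-ρ * z) * Ist ρ qc z - qh ρ‖ ≤ 24 * Real.exp (-((ρ.re + 2) * z)) := by
  have hb2 : 0 < ρ.re + 2 := by linarith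
  have hint : Integrable (fun y : ℝ => cexp (-ρ * y) * qc y) := by
    refine ((int_exp_abs 1 one_pos).const_mul 48).mono' ?_ (ae_of_all _ fun y => ?_)
    · have := qq_cont
      unfold qc
      exact (by fun_prop : Continuous fun y : ℝ => cexp (-ρ * y) * (qq y : ℂ)).aestronglyMeasurable
    · rw [norm_mul, norm_tw]
      have h3 : Real.exp (-ρ.re * y) ≤ Real.exp (|y|) := by
        refine Real.exp_le_exp.2 ?_
        calc -ρ.re * y ≤ |-ρ.re * y| := le_abs_self _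
          _ = ρ.re * |y| := by rw [abs_mul, abs_neg, abs_of_pos h0]
          _ ≤ 1 * |y| := mul_le_mul_of_nonneg_right h1.le (abs_nonneg _)
          _ = |y| := one_mul _
      calc Real.exp (-ρ.re * y) * ‖qc y‖ ≤ Real.exp (|y|) * (48 * Real.exp (-(2 * |y|))) :=
            mul_le_mul h3 (qq_bd y) (norm_nonneg _) (Real.exp_pos _).le
        _ = 48 * (Real.exp (|y|) * Real.exp (-(2 * |y|))) := by ring
        _ = _ := by rw [← Real.exp_add]; congr 2; ring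
  have e1 : cexp (-ρ * z) * Ist ρ qc z = ∫ y in Iic z, cexp (-ρ * y) * qc y := by
    unfold Ist
    rw [← mul_assoc, ← Complex.exp_add, show -ρ * (z : ℂ) + ρ * z = 0 by ring, Complex.exp_zero, one_mul]
  have e2 := intervalIntegral.integral_Iic_add_Ioi (b := z) hint.integrableOn hint.integrableOn
  have e3 : cexp (-ρ * z) * Ist ρ qc z - qh ρ = -∫ y in Ioi z, cexp (-ρ * y) * qc y := by
    rw [e1]
    have : qh ρ = ∫ y : ℝ, cexp (-ρ * y) * qc y := rfl
    rw [this, ← e2]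
    ring
  rw [e3, norm_neg]
  have e4 : ‖∫ y in Ioi z, cexp (-ρ * y) * qc y‖ ≤ ∫ y in Ioi z, 48 * Real.exp (-(ρ.re + 2) * y) := by
    refine norm_integral_le_of_norm_le ((integrableOn_exp_mul_Ioi (neg_lt_zero.2 hb2) z).const_mul 48) ?_
    refine (ae_restrict_iff' measurableSet_Ioi).2 (ae_of_all _ fun y hy => ?_)
    have hy0 : 0 ≤ y := hz.trans (le_of_lt hy)
    rw [norm_mul, norm_tw]
    have := qq_bd y
    rw [abs_of_nonneg hy0] at this
    calc Real.exp (-ρ.re * y) * ‖qc y‖ ≤ Real.exp (-ρ.re * y) * (48 * Real.exp (-(2 * y))) :=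
          mul_le_mul_of_nonneg_left this (Real.exp_pos _).le
      _ = 48 * (Real.exp (-ρ.re * y) * Real.exp (-(2 * y))) := by ring
      _ = _ := by rw [← Real.exp_add]; congr 2; ring
  rw [integral_const_mul, integral_exp_mul_Ioi (neg_lt_zero.2 hb2)] at e4
  refine e4.trans ?_
  have e5 : 48 * (-Real.exp (-(ρ.re + 2) * z) / (-(ρ.re + 2))) = 48 / (ρ.re + 2) * Real.exp (-((ρ.re + 2) * z)) := by
    rw [neg_div_neg_eq, neg_mul]
    ring
  rw [e5]
  refine mul_le_mul_of_nonneg_right ?_ (Real.exp_pos _).le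
  rw [div_le_iff₀ hb2]
  linarith

theorem tw_cancel (ρ : ℂ) (z : ℝ) (w : ℂ) : cexp (ρ * z) * (cexp (-ρ * z) * w) = w := by
  rw [← mul_assoc, ← Complex.exp_add, show ρ * (z : ℂ) + -ρ * z = 0 by ring, Complex.exp_zero, one_mul]

theorem int_exp_C (ρ : ℂ) (hρ : ρ ≠ 0) (t : ℝ) : ∫ z in (0:ℝ)..t, cexp (ρ * z) = (cexp (ρ * t) - 1) / ρ := by
  have h : ∀ z : ℝ, HasDerivAt (fun z : ℝ => cexp (ρ * z) / ρ) (cexp (ρ * z)) z := by
    intro z
    have h1 : HasDerivAt (fun z : ℝ => ρ * (z : ℂ)) (ρ * 1) z := ((hasDerivAt_id z).ofReal_comp).const_mul ρ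
    refine ((h1.cexp).div_const ρ).congr_deriv ?_
    field_simp
  rw [intervalIntegral.integral_eq_sub_of_hasDerivAt (fun z _ => h z)
    ((by fun_prop : Continuous fun z : ℝ => cexp (ρ * z)).intervalIntegrable _ _)]
  simp
  ring

theorem int_z_exp_C (ρ : ℂ) (hρ : ρ ≠ 0) (t : ℝ) : ∫ z in (0:ℝ)..t, (z : ℂ) * cexp (ρ * z) =
    t * cexp (ρ * t) / ρ - (cexp (ρ * t) - 1) / ρ ^ 2 := by
  have h : ∀ z : ℝ, HasDerivAt (fun z : ℝ => (z : ℂ) * cexp (ρ * z) / ρ - cexp (ρ * z) / ρ ^ 2)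
      ((z : ℂ) * cexp (ρ * z)) z := by
    intro z
    have h0 : HasDerivAt (fun z : ℝ => (z : ℂ)) 1 z := (hasDerivAt_id z).ofReal_comp
    have h1 : HasDerivAt (fun z : ℝ => ρ * (z : ℂ)) (ρ * 1) z := h0.const_mul ρ
    refine (((h0.mul h1.cexp).div_const ρ).sub ((h1.cexp).div_const (ρ ^ 2))).congr_deriv ?_
    field_simp
    ring
  rw [intervalIntegral.integral_eq_sub_of_hasDerivAt (fun z _ => h z)
    ((by fun_prop : Continuous fun z : ℝ => (z : ℂ) * cexp (ρ * z)).intervalIntegrable _ _)]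
  simp
  ring

/-- first twisted average -/
theorem G1_asy (ρ : ℂ) (h0 : 0 < ρ.re) (h1 : ρ.re < 1) : ∃ C : ℝ, 0 ≤ C ∧ ∀ t : ℝ, 0 ≤ t →
    ‖(∫ z in Iic t, Ist ρ qc z) - qh ρ / ρ * cexp (ρ * t)‖ ≤ C + 24 * t := by
  have hρ : ρ ≠ 0 := by rintro rfl; simp at h0
  have hQ := Ist_QQ qc_QQ ρ (by linarith)
  refine ⟨‖∫ z in Iic (0:ℝ), Ist ρ qc z‖ + ‖qh ρ / ρ‖, by positivity, fun t ht => ?_⟩
  have e1 := intervalIntegral.integral_Iic_sub_Iic (hQ.int0 0) (hQ.int0 t)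
  have hi1 : IntervalIntegrable (Ist ρ qc) volume 0 t := hQ.cont.intervalIntegrable _ _
  have hi2 : IntervalIntegrable (fun z : ℝ => qh ρ * cexp (ρ * z)) volume 0 t :=
    (by fun_prop : Continuous fun z : ℝ => qh ρ * cexp (ρ * z)).intervalIntegrable _ _
  have e2 : ‖∫ z in (0:ℝ)..t, (Ist ρ qc z - qh ρ * cexp (ρ * z))‖ ≤ 24 * |t - 0| := by
    refine intervalIntegral.norm_integral_le_of_norm_le_const fun z hz => ?_
    rw [uIoc_of_le ht] at hz
    have h5 := q1_asy ρ h0 h1 z hz.1.le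
    have h6 : Ist ρ qc z - qh ρ * cexp (ρ * z) = cexp (ρ * z) * (cexp (-ρ * z) * Ist ρ qc z - qh ρ) := by
      rw [mul_sub, tw_cancel]
      ring
    rw [h6, norm_mul, norm_tw']
    calc Real.exp (ρ.re * z) * ‖cexp (-ρ * z) * Ist ρ qc z - qh ρ‖ ≤
          Real.exp (ρ.re * z) * (24 * Real.exp (-((ρ.re + 2) * z))) := mul_le_mul_of_nonneg_left h5 (Real.exp_pos _).le
      _ = 24 * (Real.exp (ρ.re * z) * Real.exp (-((ρ.re + 2) * z))) := by ring
      _ = 24 * Real.exp (-(2 * z)) := by rw [← Real.exp_add]; congr 2; ring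
      _ ≤ 24 * 1 := mul_le_mul_of_nonneg_left (Real.exp_le_one_iff.2 (by linarith [hz.1])) (by norm_num)
      _ = 24 := by norm_num
  rw [sub_zero, abs_of_nonneg ht, intervalIntegral.integral_sub hi1 hi2, intervalIntegral.integral_const_mul,
    int_exp_C ρ hρ] at e2
  have e3 : (∫ z in Iic t, Ist ρ qc z) - qh ρ / ρ * cexp (ρ * t) =
      ((∫ z in Iic (0:ℝ), Ist ρ qc z) - qh ρ / ρ) +
      ((∫ z in (0:ℝ)..t, Ist ρ qc z) - qh ρ * ((cexp (ρ * t) - 1) / ρ)) := by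
    rw [← e1]
    ring
  rw [e3]
  refine (norm_add_le _ _).trans ?_
  exact add_le_add (norm_sub_le _ _) e2

/-- second asymptotics -/
theorem q2_asy (ρ : ℂ) (h0 : 0 < ρ.re) (h1 : ρ.re < 1) : ∃ C : ℝ, 0 ≤ C ∧ ∀ z : ℝ, 0 ≤ z →
    ‖cexp (-ρ * z) * Ist ρ (Ist ρ qc) z - qh ρ * z‖ ≤ C := by
  have hQ := Ist_QQ qc_QQ ρ (by linarith)
  have hi : ∀ v : ℝ, IntegrableOn (fun z : ℝ => cexp (-ρ * z) * Ist ρ qc z) (Iic v) := hQ.int ρ (by linarith)
  refine ⟨‖∫ z in Iic (0:ℝ), cexp (-ρ * z) * Ist ρ qc z‖ + 24, by positivity, fun z hz => ?_⟩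
  have e1 : cexp (-ρ * z) * Ist ρ (Ist ρ qc) z = ∫ y in Iic z, cexp (-ρ * y) * Ist ρ qc y := by
    rw [Ist, ← mul_assoc, ← Complex.exp_add, show -ρ * (z : ℂ) + ρ * z = 0 by ring, Complex.exp_zero, one_mul]
  have e2 := intervalIntegral.integral_Iic_sub_Iic (hi 0) (hi z)
  have hcont := hQ.cont
  have hi1 : IntervalIntegrable (fun y : ℝ => cexp (-ρ * y) * Ist ρ qc y) volume 0 z :=
    (by fun_prop : Continuous fun y : ℝ => cexp (-ρ * y) * Ist ρ qc y).intervalIntegrable _ _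
  have e3 : ‖∫ y in (0:ℝ)..z, (cexp (-ρ * y) * Ist ρ qc y - qh ρ)‖ ≤ ∫ y in (0:ℝ)..z, 24 * Real.exp (-1 * y) := by
    refine intervalIntegral.norm_integral_le_of_norm_le hz (ae_of_all _ fun y hy => ?_)
      ((by fun_prop : Continuous fun y : ℝ => 24 * Real.exp (-1 * y)).intervalIntegrable _ _)
    refine (q1_asy ρ h0 h1 y hy.1.le).trans ?_
    refine mul_le_mul_of_nonneg_left (Real.exp_le_exp.2 ?_) (by norm_num)
    nlinarith [hy.1]
  have e4 : ∫ y in (0:ℝ)..z, 24 * Real.exp (-1 * y) ≤ 24 := by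
    rw [intervalIntegral.integral_const_mul]
    have h5 : ∫ y in (0:ℝ)..z, Real.exp (-1 * y) = 1 - Real.exp (-z) := by
      have h : ∀ z : ℝ, HasDerivAt (fun z : ℝ => -Real.exp (-1 * z)) (Real.exp (-1 * z)) z := by
        intro z
        have h1 : HasDerivAt (fun z : ℝ => -1 * z) (-1 * 1) z := (hasDerivAt_id z).const_mul (-1)
        refine (h1.exp.neg).congr_deriv ?_
        ring
      rw [intervalIntegral.integral_eq_sub_of_hasDerivAt (fun z _ => h z)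
        ((by fun_prop : Continuous fun y : ℝ => Real.exp (-1 * y)).intervalIntegrable _ _)]
      simp
      ring
    rw [h5]
    have := Real.exp_pos (-z)
    linarith
  rw [intervalIntegral.integral_sub hi1 intervalIntegrable_const, intervalIntegral.integral_const] at e3
  have e5 : cexp (-ρ * z) * Ist ρ (Ist ρ qc) z - qh ρ * z = (∫ y in Iic (0:ℝ), cexp (-ρ * y) * Ist ρ qc y) +
      ((∫ y in (0:ℝ)..z, cexp (-ρ * y) * Ist ρ qc y) - (z - 0) • qh ρ) := by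
    rw [e1, ← e2, sub_zero, Complex.real_smul]
    ring
  rw [e5]
  exact (norm_add_le _ _).trans (add_le_add le_rfl (e3.trans e4))

/-- second twisted average -/
theorem G2_asy (ρ : ℂ) (h0 : 0 < ρ.re) (h1 : ρ.re < 1) : ∃ C : ℝ, 0 ≤ C ∧ ∀ t : ℝ, 0 ≤ t →
    ‖(∫ z in Iic t, Ist ρ (Ist ρ qc) z) - qh ρ / ρ * (t * cexp (ρ * t))‖ ≤ C * Real.exp (ρ.re * t) := by
  have hρ : ρ ≠ 0 := by rintro rfl; simp at h0
  have hQ := Ist_QQ (Ist_QQ qc_QQ ρ (by linarith)) ρ (by linarith)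
  obtain ⟨C, hC, hb⟩ := q2_asy ρ h0 h1
  set a : ℂ := ∫ z in Iic (0:ℝ), Ist ρ (Ist ρ qc) z with ha
  refine ⟨‖a‖ + 2 * ‖qh ρ / ρ ^ 2‖ + C / ρ.re, by positivity, fun t ht => ?_⟩
  have e1 := intervalIntegral.integral_Iic_sub_Iic (hQ.int0 0) (hQ.int0 t)
  have hi1 : IntervalIntegrable (Ist ρ (Ist ρ qc)) volume 0 t := hQ.cont.intervalIntegrable _ _
  have hi2 : IntervalIntegrable (fun z : ℝ => qh ρ * ((z : ℂ) * cexp (ρ * z))) volume 0 t :=
    (by fun_prop : Continuous fun z : ℝ => qh ρ * ((z : ℂ) * cexp (ρ * z))).intervalIntegrable _ _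
  have e2 : ‖∫ z in (0:ℝ)..t, (Ist ρ (Ist ρ qc) z - qh ρ * ((z : ℂ) * cexp (ρ * z)))‖ ≤
      ∫ z in (0:ℝ)..t, C * Real.exp (ρ.re * z) := by
    refine intervalIntegral.norm_integral_le_of_norm_le ht (ae_of_all _ fun z hz => ?_)
      ((by fun_prop : Continuous fun z : ℝ => C * Real.exp (ρ.re * z)).intervalIntegrable _ _)
    have h5 := hb z hz.1.le
    have h6 : Ist ρ (Ist ρ qc) z - qh ρ * ((z : ℂ) * cexp (ρ * z)) =
        cexp (ρ * z) * (cexp (-ρ * z) * Ist ρ (Ist ρ qc) z - qh ρ * z) := by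
      rw [mul_sub, tw_cancel]
      ring
    rw [h6, norm_mul, norm_tw', mul_comm]
    exact mul_le_mul_of_nonneg_right h5 (Real.exp_pos _).le
  have e3 : ∫ z in (0:ℝ)..t, C * Real.exp (ρ.re * z) ≤ C / ρ.re * Real.exp (ρ.re * t) := by
    rw [intervalIntegral.integral_const_mul]
    have h : ∀ z : ℝ, HasDerivAt (fun z : ℝ => Real.exp (ρ.re * z) / ρ.re) (Real.exp (ρ.re * z)) z := by
      intro z
      have h1 : HasDerivAt (fun z : ℝ => ρ.re * z) (ρ.re * 1) z := (hasDerivAt_id z).const_mul _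
      refine (h1.exp.div_const _).congr_deriv ?_
      field_simp
    rw [intervalIntegral.integral_eq_sub_of_hasDerivAt (fun z _ => h z)
      ((by fun_prop : Continuous fun y : ℝ => Real.exp (ρ.re * y)).intervalIntegrable _ _)]
    have h5 : 0 ≤ C * (Real.exp (ρ.re * 0) / ρ.re) := by positivity
    calc C * (Real.exp (ρ.re * t) / ρ.re - Real.exp (ρ.re * 0) / ρ.re) ≤ C * (Real.exp (ρ.re * t) / ρ.re) := by
          rw [mul_sub]; linarith
      _ = _ := by ring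
  rw [intervalIntegral.integral_sub hi1 hi2, intervalIntegral.integral_const_mul, int_z_exp_C ρ hρ] at e2
  have e4 : (∫ z in Iic t, Ist ρ (Ist ρ qc) z) - qh ρ / ρ * (t * cexp (ρ * t)) =
      (a - qh ρ / ρ ^ 2 * (cexp (ρ * t) - 1)) +
      ((∫ z in (0:ℝ)..t, Ist ρ (Ist ρ qc) z) - qh ρ * (t * cexp (ρ * t) / ρ - (cexp (ρ * t) - 1) / ρ ^ 2)) := by
    rw [← e1, ha]
    ring
  have h7 : 1 ≤ Real.exp (ρ.re * t) := Real.one_le_exp (by positivity)
  have e5 : ‖a - qh ρ / ρ ^ 2 * (cexp (ρ * t) - 1)‖ ≤ (‖a‖ + 2 * ‖qh ρ / ρ ^ 2‖) * Real.exp (ρ.re * t) := by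
    refine (norm_sub_le _ _).trans ?_
    rw [norm_mul]
    have h8 : ‖cexp (ρ * t) - 1‖ ≤ 2 * Real.exp (ρ.re * t) := by
      refine (norm_sub_le _ _).trans ?_
      rw [norm_tw', norm_one]
      linarith
    have h9 : ‖a‖ ≤ ‖a‖ * Real.exp (ρ.re * t) := le_mul_of_one_le_right (norm_nonneg _) h7
    have h10 : ‖qh ρ / ρ ^ 2‖ * ‖cexp (ρ * t) - 1‖ ≤ ‖qh ρ / ρ ^ 2‖ * (2 * Real.exp (ρ.re * t)) :=
      mul_le_mul_of_nonneg_left h8 (norm_nonneg _)
    nlinarith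
  rw [e4]
  refine (norm_add_le _ _).trans ?_
  have e6 := add_le_add e5 (e2.trans e3)
  refine e6.trans (le_of_eq ?_)
  ring

end

end H313.TK
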