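import Pool.Agent.H313R3.TK.F

/-!
# Core inequality: both parts of the Mertens function are large on average
-/

open Complex MeasureTheory Filter Topology Set Metric

set_option linter.unusedSectionVars false
set_option linter.unusedVariables false
set_option autoImplicit false

namespace H313.TK

noncomputable section

theorem kp_cont : Continuous kp := by
  have h := kc_DK.cont
  have : kp = fun v => (kc v).re := by
    funext v
    simp [kc]
  rw [this]
  exact Complex.continuous_re.comp h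

theorem kpW (t v : ℝ) : Real.exp (t - v) * W v ≤ 4 * Real.exp t * Real.exp (-(1 * |v|)) := by
  have h1 := W_decay v
  have h2 : Real.exp (t - v) ≤ Real.exp t * Real.exp (2 * |v|) := by
    rw [← Real.exp_add]
    refine Real.exp_le_exp.2 ?_
    have := neg_abs_le v
    have := abs_nonneg v
    linarith
  have := W_pos v
  calc Real.exp (t - v) * W v ≤ (Real.exp t * Real.exp (2 * |v|)) * W v :=
        mul_le_mul_of_nonneg_right h2 this.le
    _ = Real.exp t * (W v * Real.exp (2 * |v|)) := by ring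
    _ ≤ Real.exp t * (4 * Real.exp (-|v|)) := mul_le_mul_of_nonneg_left h1 (Real.exp_pos _).le
    _ = _ := by rw [one_mul]; ring

/-- integrability of the averages -/
theorem avg_int (f : ℝ → ℝ) (hf : Measurable f) (hb : ∀ u, |f u| ≤ Real.exp u) (t : ℝ) :
    Integrable (fun v => f (t - v) * kp v) := by
  refine ((int_exp_abs 1 one_pos).const_mul (C0 * (4 * Real.exp t))).mono' ?_ (ae_of_all _ fun v => ?_)
  · have := kp_cont
    exact (by fun_prop : Measurable fun v => f (t - v) * kp v).aestronglyMeasurable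
  · rw [norm_mul, Real.norm_eq_abs, Real.norm_eq_abs, abs_of_nonneg (kp_nonneg v)]
    calc |f (t - v)| * kp v ≤ Real.exp (t - v) * (C0 * W v) :=
          mul_le_mul (hb _) (kp_bounds v).2 (kp_nonneg v) (Real.exp_pos _).le
      _ = C0 * (Real.exp (t - v) * W v) := by ring
      _ ≤ C0 * (4 * Real.exp t * Real.exp (-(1 * |v|))) := mul_le_mul_of_nonneg_left (kpW t v) C0_nonneg
      _ = _ := by ring

theorem part_le (s : ℝ) (hs : s = 1 ∨ s = -1) (x : ℝ) : |max (s * x) 0| ≤ |x| := by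
  rw [abs_of_nonneg (le_max_right _ _)]
  refine max_le ?_ (abs_nonneg _)
  rcases hs with h | h
  · rw [h, one_mul]; exact le_abs_self _
  · rw [h, neg_one_mul]; exact neg_le_abs _

theorem part_id (s : ℝ) (hs : s = 1 ∨ s = -1) (x : ℝ) : |x| = 2 * max (s * x) 0 - s * x := by
  rcases hs with h | h
  · rw [h, one_mul]
    rcases le_total x 0 with h | h
    · rw [max_eq_right h, abs_of_nonpos h]; ring
    · rw [max_eq_left h, abs_of_nonneg h]; ring
  · rw [h, neg_one_mul]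
    rcases le_total x 0 with h | h
    · rw [max_eq_left (by linarith), abs_of_nonpos h]; ring
    · rw [max_eq_right (by linarith), abs_of_nonneg h]; ring

/-- the average of the Mertens function itself is bounded -/
theorem avg_mm (t : ℝ) : |∫ v : ℝ, mm (t - v) * kp v| ≤ 48 * ∫ x : ℝ, Real.exp (-(2 * |x|)) := by
  have h1 := moeb qc_QQ t
  rw [← kc_eq] at h1
  have h2 : ∫ v : ℝ, (mm (t - v) : ℂ) * kc v = ((∫ v : ℝ, mm (t - v) * kp v : ℝ) : ℂ) := by
    rw [← integral_complex_ofReal]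
    refine integral_congr_ae (ae_of_all _ fun v => ?_)
    simp [kc]
  rw [h2] at h1
  have h3 : |∫ v : ℝ, mm (t - v) * kp v| = ‖∫ z in Iic t, qc z‖ := by
    rw [← h1, Complex.norm_real, Real.norm_eq_abs]
  rw [h3, ← integral_const_mul]
  have hi : Integrable (fun x : ℝ => 48 * Real.exp (-(2 * |x|))) := (int_exp_abs 2 (by norm_num)).const_mul 48
  refine (norm_integral_le_of_norm_le (g := fun x : ℝ => 48 * Real.exp (-(2 * |x|))) hi.integrableOn
    (ae_of_all _ fun z => qq_bd z)).trans ?_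
  exact setIntegral_le_integral hi (ae_of_all _ fun x => by positivity)

/-- from a twisted average to both parts -/
theorem parts_of (g : ℝ → ℂ) (hg : QQ g) (hD : DK (Sg g)) : ∃ c : ℝ, 0 < c ∧ ∃ C : ℝ, ∀ t : ℝ, ∀ s : ℝ, s = 1 ∨ s = -1 →
    c * ‖∫ z in Iic t, g z‖ - C ≤ ∫ v : ℝ, max (s * mm (t - v)) 0 * kp v := by
  obtain ⟨B, hB, hb⟩ := hD.bd
  set E : ℝ := 48 * ∫ x : ℝ, Real.exp (-(2 * |x|)) with hE
  refine ⟨1 / (4 * (B + 1)), by positivity, E / 2, fun t s hs => ?_⟩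
  have hm := mm_meas
  have i1 := avg_int mm mm_meas abs_mm_le t
  have i2 : Integrable (fun v => |mm (t - v)| * kp v) :=
    avg_int (fun u => |mm u|) (by fun_prop) (fun u => by rw [abs_abs]; exact abs_mm_le u) t
  have i3 : Integrable (fun v => max (s * mm (t - v)) 0 * kp v) :=
    avg_int (fun u => max (s * mm u) 0) (by fun_prop) (fun u => (part_le s hs _).trans (abs_mm_le u)) t
  have e1 : ∫ v, |mm (t - v)| * kp v = 2 * (∫ v, max (s * mm (t - v)) 0 * kp v) - s * ∫ v, mm (t - v) * kp v := by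
    rw [← integral_const_mul, ← integral_const_mul, ← integral_sub (i3.const_mul 2) (i1.const_mul s)]
    refine integral_congr_ae (ae_of_all _ fun v => ?_)
    simp only
    rw [part_id s hs (mm (t - v))]
    ring
  have e2 := avg_mm t
  have e3 : |s * ∫ v, mm (t - v) * kp v| ≤ E := by
    rw [abs_mul]
    have : |s| = 1 := by rcases hs with h | h <;> rw [h] <;> simp
    rw [this, one_mul]
    exact e2
  have e4 : ‖∫ z in Iic t, g z‖ ≤ (2 * (B + 1)) * ∫ v, |mm (t - v)| * kp v := by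
    rw [← moeb hg t, ← integral_const_mul]
    refine norm_integral_le_of_norm_le (i2.const_mul _) (ae_of_all _ fun v => ?_)
    rw [norm_mul, Complex.norm_real, Real.norm_eq_abs]
    have h5 : ‖Sg g v‖ ≤ 2 * (B + 1) * kp v := by
      refine (hb v).trans ?_
      have h6 := (kp_bounds v).1
      have h7 := W_pos v
      nlinarith
    calc |mm (t - v)| * ‖Sg g v‖ ≤ |mm (t - v)| * (2 * (B + 1) * kp v) :=
          mul_le_mul_of_nonneg_left h5 (abs_nonneg _)
      _ = _ := by ring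
  have e5 := (abs_le.1 e3).1
  have hB1 : 0 < B + 1 := by linarith
  rw [e1] at e4
  have e6 : 1 / (4 * (B + 1)) * ‖∫ z in Iic t, g z‖ ≤
      1 / (4 * (B + 1)) * (2 * (B + 1) * (2 * (∫ v, max (s * mm (t - v)) 0 * kp v) - s * ∫ v, mm (t - v) * kp v)) :=
    mul_le_mul_of_nonneg_left e4 (by positivity)
  have e7 : 1 / (4 * (B + 1)) * (2 * (B + 1) * (2 * (∫ v, max (s * mm (t - v)) 0 * kp v) - s * ∫ v, mm (t - v) * kp v))
      = (∫ v, max (s * mm (t - v)) 0 * kp v) - (s * ∫ v, mm (t - v) * kp v) / 2 := by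
    field_simp
    ring
  rw [e7] at e6
  linarith

/-- **Core inequality.** -/
theorem core1 (ρ : ℂ) (hz : riemannZeta ρ = 0) (h0 : 0 < ρ.re) (h1 : ρ.re < 1) :
    ∃ c : ℝ, 0 < c ∧ ∀ᶠ t : ℝ in atTop, ∀ s : ℝ, s = 1 ∨ s = -1 →
      c * Real.exp (ρ.re * t) ≤ ∫ v : ℝ, max (s * mm (t - v)) 0 * kp v := by
  have hρ : ρ ≠ 0 := by rintro rfl; simp at h0
  have hQ := Ist_QQ qc_QQ ρ (by linarith)
  have hS : Sg (Ist ρ qc) = Ist ρ kc := by
    funext v
    rw [kc_eq]
    exact (Sg_Ist qc_QQ ρ (by linarith) v).symm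
  have hre : |ρ.re| ≤ 2 := by rw [abs_of_pos h0]; linarith
  have hD : DK (Sg (Ist ρ qc)) := by
    rw [hS]
    exact Ist_DK kc_DK ρ hre (Kh_zero ρ hz h0 h1)
  obtain ⟨c, hc, C, hcore⟩ := parts_of _ hQ hD
  obtain ⟨C1, hC1, hasy⟩ := G1_asy ρ h0 h1
  set A : ℝ := ‖qh ρ / ρ‖ with hA
  have hA0 : 0 < A := norm_pos_iff.2 (div_ne_zero (qh_ne ρ h0 h1) hρ)
  refine ⟨c * A / 2, by positivity, ?_⟩
  have hlim : Tendsto (fun t : ℝ => Real.exp (ρ.re * t) / t) atTop atTop := by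
    have h3 : Tendsto (fun t : ℝ => ρ.re * t) atTop atTop := Tendsto.const_mul_atTop h0 tendsto_id
    have h4 := (Real.tendsto_exp_div_pow_atTop 1).comp h3
    have h5 : Tendsto (fun t : ℝ => ρ.re * (Real.exp (ρ.re * t) / (ρ.re * t) ^ 1)) atTop atTop :=
      Tendsto.const_mul_atTop h0 h4
    refine h5.congr' ?_
    filter_upwards [eventually_gt_atTop 0] with t ht
    field_simp
  filter_upwards [hlim.eventually_ge_atTop ((c * (C1 + 24) + |C|) / (c * A / 2)), eventually_ge_atTop (1:ℝ)]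
    with t ht1 ht2 s hs
  have ht0 : 0 < t := by linarith
  rw [div_le_iff₀ (by positivity), div_mul_eq_mul_div, le_div_iff₀ ht0] at ht1
  have k1 := hcore t s hs
  have k2 := hasy t ht0.le
  have k3 : A * Real.exp (ρ.re * t) - (C1 + 24 * t) ≤ ‖∫ z in Iic t, Ist ρ qc z‖ := by
    have k4 : ‖qh ρ / ρ * cexp (ρ * t)‖ = A * Real.exp (ρ.re * t) := by rw [norm_mul, norm_tw']
    have k5 : ‖qh ρ / ρ * cexp (ρ * t)‖ ≤ ‖∫ z in Iic t, Ist ρ qc z‖ +
        ‖(∫ z in Iic t, Ist ρ qc z) - qh ρ / ρ * cexp (ρ * t)‖ := by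
      rw [← norm_neg ((∫ z in Iic t, Ist ρ qc z) - qh ρ / ρ * cexp (ρ * t))]
      refine le_trans (le_of_eq ?_) (norm_add_le _ _)
      congr 1
      ring
    rw [k4] at k5
    linarith
  have k6 := mul_le_mul_of_nonneg_left k3 hc.le
  have k7 : c * (C1 + 24 * t) + |C| ≤ (c * (C1 + 24) + |C|) * t := by
    nlinarith [mul_nonneg (mul_nonneg hc.le hC1) (sub_nonneg.2 ht2), mul_nonneg (abs_nonneg C) (sub_nonneg.2 ht2)]
  have k8 := le_abs_self C
  nlinarith

/-- **Core inequality for multiple zeros.** -/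
theorem core2 (ρ : ℂ) (hz : riemannZeta ρ = 0) (hz' : deriv riemannZeta ρ = 0) (h0 : 0 < ρ.re) (h1 : ρ.re < 1) :
    ∃ c : ℝ, 0 < c ∧ ∀ᶠ t : ℝ in atTop, ∀ s : ℝ, s = 1 ∨ s = -1 →
      c * (t * Real.exp (ρ.re * t)) ≤ ∫ v : ℝ, max (s * mm (t - v)) 0 * kp v := by
  have hρ : ρ ≠ 0 := by rintro rfl; simp at h0
  have hQ := Ist_QQ qc_QQ ρ (by linarith)
  have hQ2 := Ist_QQ hQ ρ (by linarith)
  have hre : |ρ.re| ≤ 2 := by rw [abs_of_pos h0]; linarith
  have hre1 : |ρ.re| ≤ 1 := by rw [abs_of_pos h0]; linarith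
  have hS : Sg (Ist ρ qc) = Ist ρ kc := by
    funext v
    rw [kc_eq]
    exact (Sg_Ist qc_QQ ρ (by linarith) v).symm
  have hS2 : Sg (Ist ρ (Ist ρ qc)) = Ist ρ (Ist ρ kc) := by
    funext v
    rw [← hS]
    exact (Sg_Ist hQ ρ (by linarith) v).symm
  have hK0 := Kh_zero ρ hz h0 h1
  have hD1 : DK (Ist ρ kc) := Ist_DK kc_DK ρ hre hK0
  have hm := Ist_moment kc_DK ρ hre1 hK0 (Kh_double ρ hz hz' h0 h1)
  have hD : DK (Sg (Ist ρ (Ist ρ qc))) := by
    rw [hS2]
    exact Ist_DK hD1 ρ hre hm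
  obtain ⟨c, hc, C, hcore⟩ := parts_of _ hQ2 hD
  obtain ⟨C1, hC1, hasy⟩ := G2_asy ρ h0 h1
  set A : ℝ := ‖qh ρ / ρ‖ with hA
  have hA0 : 0 < A := norm_pos_iff.2 (div_ne_zero (qh_ne ρ h0 h1) hρ)
  refine ⟨c * A / 2, by positivity, ?_⟩
  filter_upwards [eventually_ge_atTop ((c * C1 + |C|) / (c * A / 2)), eventually_ge_atTop (1:ℝ)]
    with t ht1 ht2 s hs
  have ht0 : 0 < t := by linarith
  rw [div_le_iff₀ (by positivity)] at ht1
  have k1 := hcore t s hs
  have k2 := hasy t ht0.le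
  have hE : 1 ≤ Real.exp (ρ.re * t) := Real.one_le_exp (by positivity)
  have k3 : A * (t * Real.exp (ρ.re * t)) - C1 * Real.exp (ρ.re * t) ≤ ‖∫ z in Iic t, Ist ρ (Ist ρ qc) z‖ := by
    have k4 : ‖qh ρ / ρ * (t * cexp (ρ * t))‖ = A * (t * Real.exp (ρ.re * t)) := by
      rw [norm_mul, norm_mul, norm_tw', Complex.norm_real, Real.norm_eq_abs, abs_of_pos ht0]
    have k5 : ‖qh ρ / ρ * (t * cexp (ρ * t))‖ ≤ ‖∫ z in Iic t, Ist ρ (Ist ρ qc) z‖ +
        ‖(∫ z in Iic t, Ist ρ (Ist ρ qc) z) - qh ρ / ρ * (t * cexp (ρ * t))‖ := by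
      rw [← norm_neg ((∫ z in Iic t, Ist ρ (Ist ρ qc) z) - qh ρ / ρ * (t * cexp (ρ * t)))]
      refine le_trans (le_of_eq ?_) (norm_add_le _ _)
      congr 1
      ring
    rw [k4] at k5
    linarith
  have k6 := mul_le_mul_of_nonneg_left k3 hc.le
  have k8 := le_abs_self C
  have k9 : (c * C1 + |C|) * Real.exp (ρ.re * t) ≤ t * (c * A / 2) * Real.exp (ρ.re * t) :=
    mul_le_mul_of_nonneg_right ht1 (by linarith)
  have k10 : |C| ≤ |C| * Real.exp (ρ.re * t) := le_mul_of_one_le_right (abs_nonneg _) hE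
  nlinarith

end

end H313.TK
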