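import Pool.Agent.H313R3.TK.G

/-!
# Every window `[x, x log x]`
-/

open Complex MeasureTheory Filter Topology Set Metric

set_option linter.unusedSectionVars false
set_option linter.unusedVariables false
set_option autoImplicit false

namespace H313.TK

noncomputable section

/-- the mass of the comparison function -/
def D1 : ℝ := ∫ x : ℝ, Real.exp (-(1 * |x|))

theorem D1_nonneg : 0 ≤ D1 := integral_nonneg fun x => (Real.exp_pos _).le

theorem tail_pt (a v : ℝ) (ha : 0 ≤ a) (hv : a ≤ |v|) :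
    Real.exp (-v) * W v ≤ 4 * (Real.exp a * W (-a)) * (Real.exp (-(1 * |v - a|)) + Real.exp (-(1 * |v - -a|))) := by
  have hW := W_pos (-a)
  rw [one_mul, one_mul]
  rcases le_total 0 v with h | h
  · rw [abs_of_nonneg h] at hv
    have h1 := W_dom a v (Or.inr ⟨ha, hv⟩)
    rw [W_sym a ha] at h1
    set r := |a - v| with hr
    have hr0 : 0 ≤ r := abs_nonneg _
    have hr1 : |v - a| = r := by rw [hr, abs_sub_comm]
    rw [hr1]
    have e1 : W v ≤ 4 * (Real.exp a * W (-a)) * Real.exp (-r) := by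
      have h3 : W v * 1 ≤ W v * Real.exp (2 * r) := mul_le_mul_of_nonneg_left (Real.one_le_exp (by linarith)) (W_pos v).le
      linarith
    have e2 : Real.exp (-v) ≤ 1 := Real.exp_le_one_iff.2 (by linarith)
    have e3 := W_pos v
    have e4 := Real.exp_pos (-|v - -a|)
    have e5 : 0 < 4 * (Real.exp a * W (-a)) := by positivity
    calc Real.exp (-v) * W v ≤ 1 * W v := mul_le_mul_of_nonneg_right e2 e3.le
      _ ≤ 4 * (Real.exp a * W (-a)) * Real.exp (-r) := by rw [one_mul]; exact e1
      _ ≤ _ := mul_le_mul_of_nonneg_left (by linarith) e5.le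
  · rw [abs_of_nonpos h] at hv
    have h1 := W_dom (-a) v (Or.inl ⟨by linarith, by linarith⟩)
    set r := |-a - v| with hr
    have hr0 : 0 ≤ r := abs_nonneg _
    have hr1 : |v - -a| = r := by rw [hr, abs_sub_comm]
    have hr2 : -v = a + r := by rw [hr, abs_of_nonneg (by linarith)]; ring
    rw [hr1, hr2, Real.exp_add]
    have e1 : Real.exp r * W v ≤ 4 * W (-a) * Real.exp (-r) := by
      have h3 : Real.exp r ≤ Real.exp (2 * r) := Real.exp_le_exp.2 (by linarith)
      have h4 := mul_le_mul_of_nonneg_right h3 (W_pos v).le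
      linarith
    have e4 := Real.exp_pos (-|v - a|)
    have e5 : 0 < 4 * (Real.exp a * W (-a)) := by positivity
    calc Real.exp a * Real.exp r * W v = Real.exp a * (Real.exp r * W v) := by ring
      _ ≤ Real.exp a * (4 * W (-a) * Real.exp (-r)) := mul_le_mul_of_nonneg_left e1 (Real.exp_pos _).le
      _ = 4 * (Real.exp a * W (-a)) * Real.exp (-r) := by ring
      _ ≤ _ := mul_le_mul_of_nonneg_left (by linarith) e5.le

/-- the tail of an average -/
theorem tail (f : ℝ → ℝ) (hf : Measurable f) (hf0 : ∀ u, 0 ≤ f u) (hb : ∀ u, f u ≤ Real.exp u) (t a : ℝ) (ha : 0 ≤ a) :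
    ∫ v : ℝ, f (t - v) * kp v ≤ (∫ v in Icc (-a) a, f (t - v) * kp v) +
      8 * C0 * D1 * (Real.exp (t + a) * W (-a)) := by
  have hi := avg_int f hf (fun u => by rw [abs_of_nonneg (hf0 u)]; exact hb u) t
  rw [← integral_add_compl (measurableSet_Icc (a := -a) (b := a)) hi]
  refine add_le_add le_rfl ?_
  have hC0 := C0_nonneg
  have hW := W_pos (-a)
  set K : ℝ := C0 * (Real.exp t * (4 * (Real.exp a * W (-a)))) with hK
  have hK0 : 0 ≤ K := by positivity
  have hj : Integrable (fun v : ℝ => K * (Real.exp (-(1 * |v - a|)) + Real.exp (-(1 * |v - -a|)))) :=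
    (((int_exp_abs 1 one_pos).comp_sub_right a).add ((int_exp_abs 1 one_pos).comp_sub_right (-a))).const_mul K
  have e1 : ∫ v in (Icc (-a) a)ᶜ, f (t - v) * kp v ≤
      ∫ v in (Icc (-a) a)ᶜ, K * (Real.exp (-(1 * |v - a|)) + Real.exp (-(1 * |v - -a|))) := by
    refine setIntegral_mono_on hi.integrableOn hj.integrableOn measurableSet_Icc.compl fun v hv => ?_
    have hv2 : a ≤ |v| := by
      by_contra h
      push Not at h
      rw [abs_lt] at h
      exact hv ⟨h.1.le, h.2.le⟩
    have h1 := tail_pt a v ha hv2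
    calc f (t - v) * kp v ≤ Real.exp (t - v) * (C0 * W v) :=
          mul_le_mul (hb _) (kp_bounds v).2 (kp_nonneg v) (Real.exp_pos _).le
      _ = C0 * (Real.exp t * (Real.exp (-v) * W v)) := by
          rw [sub_eq_add_neg, Real.exp_add]; ring
      _ ≤ C0 * (Real.exp t * (4 * (Real.exp a * W (-a)) * (Real.exp (-(1 * |v - a|)) + Real.exp (-(1 * |v - -a|))))) :=
          mul_le_mul_of_nonneg_left (mul_le_mul_of_nonneg_left h1 (Real.exp_pos _).le) hC0
      _ = _ := by rw [hK]; ring
  have e2 : ∫ v in (Icc (-a) a)ᶜ, K * (Real.exp (-(1 * |v - a|)) + Real.exp (-(1 * |v - -a|))) ≤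
      ∫ v : ℝ, K * (Real.exp (-(1 * |v - a|)) + Real.exp (-(1 * |v - -a|))) :=
    setIntegral_le_integral hj (ae_of_all _ fun v => by
      show 0 ≤ K * (Real.exp (-(1 * |v - a|)) + Real.exp (-(1 * |v - -a|)))
      positivity)
  have e3 : ∫ v : ℝ, K * (Real.exp (-(1 * |v - a|)) + Real.exp (-(1 * |v - -a|))) = K * (2 * D1) := by
    rw [integral_const_mul, integral_add ((int_exp_abs 1 one_pos).comp_sub_right a)
      ((int_exp_abs 1 one_pos).comp_sub_right (-a)),
      integral_sub_right_eq_self (fun x => Real.exp (-(1 * |x|))) a,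
      integral_sub_right_eq_self (fun x => Real.exp (-(1 * |x|))) (-a)]
    unfold D1
    ring
  refine (e1.trans e2).trans (le_of_eq ?_)
  rw [e3, hK, Real.exp_add]
  ring

/-- the center of the window -/
def ct (l : ℝ) : ℝ := l + Real.log l / 2

theorem ct_tendsto : Tendsto ct atTop atTop := by
  refine tendsto_atTop_mono' atTop ?_ tendsto_id
  filter_upwards [eventually_ge_atTop (1:ℝ)] with l hl
  unfold ct
  have := Real.log_nonneg hl
  show l ≤ _
  linarith

/-- restriction to the window -/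
theorem win (β : ℝ) (hβ : 1 / 2 ≤ β) (Lf : ℝ → ℝ) (hL : ∀ᶠ t in atTop, 1 ≤ Lf t)
    (hcore : ∃ c : ℝ, 0 < c ∧ ∀ᶠ t : ℝ in atTop, ∀ s : ℝ, s = 1 ∨ s = -1 →
      c * (Lf t * Real.exp (β * t)) ≤ ∫ v : ℝ, max (s * mm (t - v)) 0 * kp v) :
    ∃ c : ℝ, 0 < c ∧ ∀ᶠ l : ℝ in atTop, ∀ s : ℝ, s = 1 ∨ s = -1 →
      c * (Lf (ct l) * Real.exp (β * ct l)) ≤
        ∫ v in Icc (-(Real.log l / 2)) (Real.log l / 2), max (s * mm (ct l - v)) 0 * kp v := by
  obtain ⟨c, hc, hev⟩ := hcore
  refine ⟨c / 2, by positivity, ?_⟩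
  have hC0 := C0_nonneg
  have hD1 := D1_nonneg
  set B : ℝ := 8 * C0 * D1 with hB
  have hB0 : 0 ≤ B := by positivity
  -- the elementary asymptotic inequality
  have hlim : ∀ᶠ l : ℝ in atTop, B * (l * Real.exp (-(l / 4))) ≤ c / 2 := by
    have h1 : Tendsto (fun l : ℝ => l * Real.exp (-(l / 4))) atTop (𝓝 0) := by
      have h2 : Tendsto (fun l : ℝ => l / 4) atTop atTop := tendsto_id.atTop_div_const (by norm_num)
      have h3 := (Real.tendsto_pow_mul_exp_neg_atTop_nhds_zero 1).comp h2
      have h4 : Tendsto (fun l : ℝ => 4 * ((l / 4) ^ 1 * Real.exp (-(l / 4)))) atTop (𝓝 (4 * 0)) := h3.const_mul 4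
      rw [mul_zero] at h4
      refine h4.congr fun l => ?_
      ring
    have h5 : Tendsto (fun l : ℝ => B * (l * Real.exp (-(l / 4)))) atTop (𝓝 (B * 0)) := h1.const_mul B
    rw [mul_zero] at h5
    exact h5.eventually (ge_mem_nhds (by positivity))
  filter_upwards [ct_tendsto.eventually hev, ct_tendsto.eventually hL, hlim, eventually_ge_atTop (1:ℝ)]
    with l h1 h2 h3 h4 s hs
  set a : ℝ := Real.log l / 2 with ha
  have hl0 : 0 < l := by linarith
  have ha0 : 0 ≤ a := by rw [ha]; have := Real.log_nonneg h4; positivity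
  have hm := mm_meas
  have k1 := h1 s hs
  have k2 := tail (fun u => max (s * mm u) 0) (by fun_prop) (fun u => le_max_right _ _)
    (fun u => (le_abs_self _).trans ((part_le s hs _).trans (abs_mm_le u))) (ct l) a ha0
  have k3 : Real.exp (ct l + a) * W (-a) ≤ l * Real.exp (l / 4) := by
    have e1 : Real.exp (ct l + a) = l * Real.exp l := by
      have : ct l + a = Real.log l + l := by unfold ct; rw [ha]; ring
      rw [this, Real.exp_add, Real.exp_log hl0]
    have e2 : W (-a) ≤ Real.exp (-(3 / 4 * l)) := by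
      unfold W
      refine Real.exp_le_exp.2 ?_
      rw [max_eq_right (by linarith), abs_neg, abs_of_nonneg ha0]
      have e3 : 2 * a = Real.log l := by rw [ha]; ring
      rw [e3, Real.exp_log hl0]
      have := Real.pi_gt_three
      nlinarith
    rw [e1]
    calc l * Real.exp l * W (-a) ≤ l * Real.exp l * Real.exp (-(3 / 4 * l)) :=
          mul_le_mul_of_nonneg_left e2 (by positivity)
      _ = l * (Real.exp l * Real.exp (-(3 / 4 * l))) := by ring
      _ = _ := by rw [← Real.exp_add]; congr 2; ring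
  have k4 : B * (Real.exp (ct l + a) * W (-a)) ≤ c / 2 * Real.exp (β * ct l) := by
    have e1 : B * (Real.exp (ct l + a) * W (-a)) ≤ B * (l * Real.exp (l / 4)) := mul_le_mul_of_nonneg_left k3 hB0
    have e2 : B * (l * Real.exp (l / 4)) = (B * (l * Real.exp (-(l / 4)))) * Real.exp (l / 2) := by
      have : Real.exp (l / 4) = Real.exp (-(l / 4)) * Real.exp (l / 2) := by
        rw [← Real.exp_add]; congr 1; ring
      rw [this]
      ring
    have e3 : Real.exp (l / 2) ≤ Real.exp (β * ct l) := by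
      refine Real.exp_le_exp.2 ?_
      have : l ≤ ct l := by unfold ct; linarith
      nlinarith
    calc B * (Real.exp (ct l + a) * W (-a)) ≤ (B * (l * Real.exp (-(l / 4)))) * Real.exp (l / 2) := by rw [← e2]; exact e1
      _ ≤ c / 2 * Real.exp (l / 2) := mul_le_mul_of_nonneg_right h3 (Real.exp_pos _).le
      _ ≤ _ := mul_le_mul_of_nonneg_left e3 (by positivity)
  have k5 : Real.exp (β * ct l) ≤ Lf (ct l) * Real.exp (β * ct l) := le_mul_of_one_le_left (Real.exp_pos _).le h2
  have k6 := mul_le_mul_of_nonneg_left k5 (by positivity : 0 ≤ c / 2)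
  linarith

/-- a bound for the mass of the twisted kernel -/
theorem mass_le (β : ℝ) (h0 : 0 ≤ β) (h2 : β ≤ 2) :
    Integrable (fun v => Real.exp (-(β * v)) * kp v) ∧ ∫ v, Real.exp (-(β * v)) * kp v ≤ 4 * C0 * D1 := by
  have hC0 := C0_nonneg
  have hpt : ∀ v : ℝ, Real.exp (-(β * v)) * kp v ≤ 4 * C0 * Real.exp (-(1 * |v|)) := by
    intro v
    have h3 : Real.exp (-(β * v)) ≤ Real.exp (2 * |v|) := by
      refine Real.exp_le_exp.2 ?_
      have h4 := neg_abs_le v
      have h5 := abs_nonneg v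
      nlinarith
    calc Real.exp (-(β * v)) * kp v ≤ Real.exp (2 * |v|) * (C0 * W v) :=
          mul_le_mul h3 (kp_bounds v).2 (kp_nonneg v) (Real.exp_pos _).le
      _ = C0 * (W v * Real.exp (2 * |v|)) := by ring
      _ ≤ C0 * (4 * Real.exp (-|v|)) := mul_le_mul_of_nonneg_left (W_decay v) hC0
      _ = _ := by rw [one_mul]; ring
  have hi : Integrable (fun v => Real.exp (-(β * v)) * kp v) := by
    refine ((int_exp_abs 1 one_pos).const_mul (4 * C0)).mono' ?_ (ae_of_all _ fun v => ?_)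
    · have := kp_cont
      exact (by fun_prop : Continuous fun v => Real.exp (-(β * v)) * kp v).aestronglyMeasurable
    · rw [norm_mul, Real.norm_eq_abs, Real.norm_eq_abs, abs_of_pos (Real.exp_pos _), abs_of_nonneg (kp_nonneg v)]
      exact hpt v
  refine ⟨hi, ?_⟩
  have := integral_mono hi ((int_exp_abs 1 one_pos).const_mul (4 * C0)) hpt
  rw [integral_const_mul] at this
  exact this

/-- sup version -/
theorem win_sup (β : ℝ) (hβ : 1 / 2 ≤ β) (hβ1 : β ≤ 1) (Lf : ℝ → ℝ) (hL : ∀ᶠ t in atTop, 1 ≤ Lf t)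
    (hcore : ∃ c : ℝ, 0 < c ∧ ∀ᶠ t : ℝ in atTop, ∀ s : ℝ, s = 1 ∨ s = -1 →
      c * (Lf t * Real.exp (β * t)) ≤ ∫ v : ℝ, max (s * mm (t - v)) 0 * kp v) :
    ∃ c : ℝ, 0 < c ∧ ∀ᶠ l : ℝ in atTop, ∀ s : ℝ, s = 1 ∨ s = -1 →
      ∃ u ∈ Icc l (l + Real.log l), c * (Lf (ct l) * Real.exp (β * u)) ≤ s * mm u := by
  obtain ⟨c, hc, hev⟩ := win β hβ Lf hL hcore
  have hC0 := C0_nonneg
  have hD1 := D1_nonneg
  obtain ⟨hmi, hmass⟩ := mass_le β (by linarith) (by linarith)
  refine ⟨c / (4 * C0 * D1 + 1), by positivity, ?_⟩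
  filter_upwards [hev, ct_tendsto.eventually hL, eventually_ge_atTop (1:ℝ)] with l h1 h2 h3 s hs
  by_contra hcon
  push Not at hcon
  set a : ℝ := Real.log l / 2 with ha
  set δ : ℝ := c / (4 * C0 * D1 + 1) * Lf (ct l) with hδ
  have hδ0 : 0 < δ := by positivity
  have ha0 : 0 ≤ a := by rw [ha]; have := Real.log_nonneg h3; positivity
  have k1 := h1 s hs
  have hm := mm_meas
  have hi := avg_int (fun u => max (s * mm u) 0) (by fun_prop) (fun u => (part_le s hs _).trans (abs_mm_le u)) (ct l)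
  have k2 : ∫ v in Icc (-a) a, max (s * mm (ct l - v)) 0 * kp v ≤
      ∫ v in Icc (-a) a, δ * Real.exp (β * ct l) * (Real.exp (-(β * v)) * kp v) := by
    refine setIntegral_mono_on hi.integrableOn ((hmi.const_mul _).integrableOn) measurableSet_Icc fun v hv => ?_
    have hu : ct l - v ∈ Icc l (l + Real.log l) := by
      unfold ct
      constructor <;> linarith [hv.1, hv.2]
    have h5 : max (s * mm (ct l - v)) 0 ≤ δ * Real.exp (β * (ct l - v)) := by
      refine max_le ?_ (by positivity)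
      refine (hcon _ hu).le.trans (le_of_eq ?_)
      rw [hδ]
      ring
    calc max (s * mm (ct l - v)) 0 * kp v ≤ δ * Real.exp (β * (ct l - v)) * kp v :=
          mul_le_mul_of_nonneg_right h5 (kp_nonneg v)
      _ = δ * (Real.exp (β * ct l) * Real.exp (-(β * v))) * kp v := by
          rw [← Real.exp_add]; congr 3; ring
      _ = _ := by ring
  have k3 : ∫ v in Icc (-a) a, δ * Real.exp (β * ct l) * (Real.exp (-(β * v)) * kp v) ≤
      δ * Real.exp (β * ct l) * (4 * C0 * D1) := by
    rw [integral_const_mul]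
    refine mul_le_mul_of_nonneg_left ?_ (by positivity)
    refine (setIntegral_le_integral hmi (ae_of_all _ fun v => ?_)).trans hmass
    exact mul_nonneg (Real.exp_pos _).le (kp_nonneg v)
  have k4 := (k1.trans k2).trans k3
  have k5 : δ * Real.exp (β * ct l) * (4 * C0 * D1) = c * (Lf (ct l) * Real.exp (β * ct l)) * ((4 * C0 * D1) / (4 * C0 * D1 + 1)) := by
    rw [hδ]
    field_simp
  rw [k5] at k4
  have k6 : (4 * C0 * D1) / (4 * C0 * D1 + 1) < 1 := by
    rw [div_lt_one (by positivity)]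
    linarith
  have k7 : 0 < c * (Lf (ct l) * Real.exp (β * ct l)) := by positivity
  nlinarith

end

end H313.TK
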