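import Pool.Agent.H313R3.TK.H

/-!
# Mean values over every window `[x, x log x]`
-/

open Complex MeasureTheory Filter Topology Set Metric

set_option linter.unusedSectionVars false
set_option linter.unusedVariables false
set_option autoImplicit false

namespace H313.TK

noncomputable section

theorem refl_Icc (G : ℝ → ℝ) (t a : ℝ) : ∫ v in Icc (-a) a, G (t - v) = ∫ u in Icc (t - a) (t + a), G u := by
  rw [← integral_indicator measurableSet_Icc, ← integral_indicator measurableSet_Icc,
    ← integral_sub_left_eq_self (fun u => (Icc (t - a) (t + a)).indicator G u) volume t]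
  refine integral_congr_ae (ae_of_all _ fun v => ?_)
  simp only
  by_cases h : v ∈ Icc (-a) a
  · rw [indicator_of_mem h, indicator_of_mem (show t - v ∈ Icc (t - a) (t + a) by
      constructor <;> linarith [h.1, h.2])]
  · rw [indicator_of_notMem h, indicator_of_notMem (show t - v ∉ Icc (t - a) (t + a) by
      intro h2
      exact h ⟨by linarith [h2.2], by linarith [h2.1]⟩)]

theorem kp_le_exp (β v : ℝ) (h0 : 0 ≤ β) (h2 : β ≤ 1) : kp v ≤ 4 * C0 * Real.exp (2 * β * v) := by
  have h1 := W_decay v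
  have hC0 := C0_nonneg
  have h3 : W v ≤ 4 * Real.exp (2 * β * v) := by
    have h4 : W v = W v * Real.exp (2 * |v|) * Real.exp (-(2 * |v|)) := by
      rw [mul_assoc, ← Real.exp_add, add_neg_cancel, Real.exp_zero, mul_one]
    rw [h4]
    calc W v * Real.exp (2 * |v|) * Real.exp (-(2 * |v|)) ≤ 4 * Real.exp (-|v|) * Real.exp (-(2 * |v|)) :=
          mul_le_mul_of_nonneg_right h1 (Real.exp_pos _).le
      _ = 4 * Real.exp (-|v| + -(2 * |v|)) := by rw [mul_assoc, ← Real.exp_add]
      _ ≤ 4 * Real.exp (2 * β * v) := by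
          refine mul_le_mul_of_nonneg_left (Real.exp_le_exp.2 ?_) (by norm_num)
          have h5 := neg_abs_le v
          have h6 := abs_nonneg v
          nlinarith
  calc kp v ≤ C0 * W v := (kp_bounds v).2
    _ ≤ C0 * (4 * Real.exp (2 * β * v)) := mul_le_mul_of_nonneg_left h3 hC0
    _ = _ := by ring

/-- mean square version -/
theorem win_sq (β : ℝ) (hβ : 1 / 2 ≤ β) (hβ1 : β ≤ 1) (Lf : ℝ → ℝ) (hL : ∀ᶠ t in atTop, 1 ≤ Lf t)
    (hcore : ∃ c : ℝ, 0 < c ∧ ∀ᶠ t : ℝ in atTop, ∀ s : ℝ, s = 1 ∨ s = -1 →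
      c * (Lf t * Real.exp (β * t)) ≤ ∫ v : ℝ, max (s * mm (t - v)) 0 * kp v) :
    ∃ c : ℝ, 0 < c ∧ ∀ᶠ l : ℝ in atTop, ∀ s : ℝ, s = 1 ∨ s = -1 →
      c * (Lf (ct l)) ^ 2 ≤ ∫ u in Icc l (l + Real.log l), (max (s * mm u) 0) ^ 2 * Real.exp (-(2 * β * u)) := by
  obtain ⟨c, hc, hev⟩ := win β hβ Lf hL hcore
  have hC0 := C0_nonneg
  have hD1 := D1_nonneg
  obtain ⟨hmi, hmass⟩ := mass_le 0 le_rfl (by norm_num)
  set K : ℝ := 4 * C0 * D1 + 1 with hK
  have hK0 : 0 < K := by positivity
  refine ⟨c ^ 2 / (K * (4 * C0 + 1)), by positivity, ?_⟩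
  filter_upwards [hev, ct_tendsto.eventually hL, eventually_ge_atTop (1:ℝ)] with l h1 h2 h3 s hs
  set a : ℝ := Real.log l / 2 with ha
  have ha0 : 0 ≤ a := by rw [ha]; have := Real.log_nonneg h3; positivity
  set t : ℝ := ct l with ht
  have hta : t - a = l := by rw [ht, ha]; unfold ct; ring
  have hta2 : t + a = l + Real.log l := by rw [ht, ha]; unfold ct; ring
  have hm := mm_meas
  have hk := kp_cont
  set F : ℝ → ℝ := fun u => max (s * mm u) 0 with hF
  have hF0 : ∀ u, 0 ≤ F u := fun u => le_max_right _ _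
  have hFm : Measurable F := by simp only [hF]; fun_prop
  have hFb : ∀ u, F u ≤ Real.exp u := fun u => (le_abs_self _).trans ((part_le s hs _).trans (abs_mm_le u))
  set X : ℝ := ∫ v in Icc (-a) a, F (t - v) * kp v with hX
  have hXlow : c * (Lf t * Real.exp (β * t)) ≤ X := h1 s hs
  have hLt : 1 ≤ Lf t := h2
  have hX0 : 0 < X := lt_of_lt_of_le (by positivity) hXlow
  have hbd : ∀ v ∈ Icc (-a) a, F (t - v) ≤ Real.exp (t + a) := fun v hv =>
    (hFb _).trans (Real.exp_le_exp.2 (by linarith [hv.1]))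
  have i1 : IntegrableOn (fun v => F (t - v) * kp v) (Icc (-a) a) :=
    (avg_int F hFm (fun u => by rw [abs_of_nonneg (hF0 u)]; exact hFb u) t).integrableOn
  have i0 : IntegrableOn kp (Icc (-a) a) := hk.continuousOn.integrableOn_compact isCompact_Icc
  have i2 : IntegrableOn (fun v => (F (t - v)) ^ 2 * kp v) (Icc (-a) a) := by
    refine Integrable.mono' (g := fun v => Real.exp (t + a) ^ 2 * kp v) (i0.const_mul _) ?_ ?_
    · exact (by fun_prop : Measurable fun v => (F (t - v)) ^ 2 * kp v).aestronglyMeasurable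
    · refine (ae_restrict_iff' measurableSet_Icc).2 (ae_of_all _ fun v hv => ?_)
      rw [Real.norm_eq_abs, abs_of_nonneg (mul_nonneg (sq_nonneg _) (kp_nonneg v))]
      exact mul_le_mul_of_nonneg_right (pow_le_pow_left₀ (hF0 _) (hbd v hv) 2) (kp_nonneg v)
  set Y : ℝ := ∫ v in Icc (-a) a, (F (t - v)) ^ 2 * kp v with hY
  have hmass' : ∫ v in Icc (-a) a, kp v ≤ K := by
    have h5 : ∫ v in Icc (-a) a, kp v ≤ ∫ v, kp v := by
      refine setIntegral_le_integral ?_ (ae_of_all _ fun v => kp_nonneg v)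
      refine hmi.congr (ae_of_all _ fun v => ?_)
      simp
    have h6 : ∫ v, kp v ≤ 4 * C0 * D1 := by
      refine le_trans (le_of_eq ?_) hmass
      refine integral_congr_ae (ae_of_all _ fun v => ?_)
      simp
    linarith
  -- Cauchy-Schwarz
  have hCS : X ^ 2 ≤ K * Y := by
    set lam : ℝ := K / X with hlam
    have hlam0 : 0 < lam := by positivity
    have h5 : X ≤ lam / 2 * Y + 1 / (2 * lam) * ∫ v in Icc (-a) a, kp v := by
      rw [hX, hY, ← integral_const_mul, ← integral_const_mul, ← integral_add (i2.const_mul _) (i0.const_mul _)]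
      refine setIntegral_mono_on i1 ((i2.const_mul _).add (i0.const_mul _)) measurableSet_Icc fun v hv => ?_
      have h6 : F (t - v) ≤ lam / 2 * (F (t - v)) ^ 2 + 1 / (2 * lam) := by
        have h7 := sq_nonneg (lam * F (t - v) - 1)
        have h8 : F (t - v) * (2 * lam) ≤ (lam / 2 * (F (t - v)) ^ 2 + 1 / (2 * lam)) * (2 * lam) := by
          have h9 : 1 / (2 * lam) * (2 * lam) = 1 := by field_simp
          nlinarith
        exact le_of_mul_le_mul_right h8 (by positivity)
      calc F (t - v) * kp v ≤ (lam / 2 * (F (t - v)) ^ 2 + 1 / (2 * lam)) * kp v :=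
            mul_le_mul_of_nonneg_right h6 (kp_nonneg v)
        _ = _ := by ring
    have h6 : 1 / (2 * lam) * ∫ v in Icc (-a) a, kp v ≤ 1 / (2 * lam) * K :=
      mul_le_mul_of_nonneg_left hmass' (by positivity)
    have h7 : 1 / (2 * lam) * K = X / 2 := by
      rw [hlam]
      field_simp
    have h8 : lam / 2 * Y = K * Y / (2 * X) := by
      rw [hlam]
      field_simp
    have h9 : X / 2 ≤ K * Y / (2 * X) := by linarith
    rw [le_div_iff₀ (by positivity)] at h9
    nlinarith
  -- remove the kernel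
  have hYle : Y ≤ 4 * C0 * Real.exp (2 * β * t) * ∫ u in Icc l (l + Real.log l), (F u) ^ 2 * Real.exp (-(2 * β * u)) := by
    have hrefl := refl_Icc (fun u => (F u) ^ 2 * Real.exp (-(2 * β * u))) t a
    rw [hta, hta2] at hrefl
    rw [← hrefl, ← integral_const_mul]
    refine setIntegral_mono_on i2 ?_ measurableSet_Icc fun v hv => ?_
    · refine Integrable.mono' (g := fun v => 4 * C0 * Real.exp (2 * β * t) * (Real.exp (t + a) ^ 2 * Real.exp (-(2 * β * (t - v))))) ?_ ?_ ?_
      · exact (by fun_prop : Continuous fun v => 4 * C0 * Real.exp (2 * β * t) * (Real.exp (t + a) ^ 2 * Real.exp (-(2 * β * (t - v))))).continuousOn.integrableOn_compact isCompact_Icc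
      · exact (by fun_prop : Measurable fun v => 4 * C0 * Real.exp (2 * β * t) * ((F (t - v)) ^ 2 * Real.exp (-(2 * β * (t - v))))).aestronglyMeasurable
      · refine (ae_restrict_iff' measurableSet_Icc).2 (ae_of_all _ fun v hv => ?_)
        rw [Real.norm_eq_abs, abs_of_nonneg (by positivity)]
        refine mul_le_mul_of_nonneg_left ?_ (by positivity)
        exact mul_le_mul_of_nonneg_right (pow_le_pow_left₀ (hF0 _) (hbd v hv) 2) (Real.exp_pos _).le
    · have h5 := kp_le_exp β v (by linarith) hβ1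
      calc (F (t - v)) ^ 2 * kp v ≤ (F (t - v)) ^ 2 * (4 * C0 * Real.exp (2 * β * v)) :=
            mul_le_mul_of_nonneg_left h5 (sq_nonneg _)
        _ = 4 * C0 * ((F (t - v)) ^ 2 * (Real.exp (2 * β * t) * Real.exp (-(2 * β * (t - v))))) := by
            rw [← Real.exp_add]
            have : 2 * β * t + -(2 * β * (t - v)) = 2 * β * v := by ring
            rw [this]
            ring
        _ = _ := by ring
  set I : ℝ := ∫ u in Icc l (l + Real.log l), (F u) ^ 2 * Real.exp (-(2 * β * u)) with hI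
  have hI0 : 0 ≤ I := integral_nonneg fun u => by positivity
  have hE : Real.exp (2 * β * t) = Real.exp (β * t) ^ 2 := by
    rw [← Real.exp_nat_mul]
    congr 1
    push_cast
    ring
  have hE0 := Real.exp_pos (β * t)
  have h5 : (c * (Lf t * Real.exp (β * t))) ^ 2 ≤ X ^ 2 := pow_le_pow_left₀ (by positivity) hXlow 2
  have h6 : K * Y ≤ K * (4 * C0 * Real.exp (β * t) ^ 2 * I) := by
    rw [hE] at hYle
    exact mul_le_mul_of_nonneg_left hYle hK0.le
  have h7 : c ^ 2 * (Lf t) ^ 2 * Real.exp (β * t) ^ 2 ≤ (K * (4 * C0) * I) * Real.exp (β * t) ^ 2 := by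
    calc c ^ 2 * (Lf t) ^ 2 * Real.exp (β * t) ^ 2 = (c * (Lf t * Real.exp (β * t))) ^ 2 := by ring
      _ ≤ K * (4 * C0 * Real.exp (β * t) ^ 2 * I) := (h5.trans hCS).trans h6
      _ = _ := by ring
  have h8 : c ^ 2 * (Lf t) ^ 2 ≤ K * (4 * C0) * I := le_of_mul_le_mul_right h7 (by positivity)
  rw [div_mul_eq_mul_div, div_le_iff₀ (by positivity)]
  calc c ^ 2 * (Lf t) ^ 2 ≤ K * (4 * C0) * I := h8
    _ ≤ K * (4 * C0 + 1) * I := by
        refine mul_le_mul_of_nonneg_right (mul_le_mul_of_nonneg_left (by linarith) hK0.le) hI0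
    _ = I * (K * (4 * C0 + 1)) := by ring

/-- the window in the original variable -/
theorem sq_window (β l s : ℝ) (hβ : 1 / 2 ≤ β) (hl : 1 ≤ l) :
    ∫ u in Icc l (l + Real.log l), (max (s * mm u) 0) ^ 2 * Real.exp (-(2 * β * u)) ≤
      Real.exp (-((2 * β - 1) * l)) * ∫ y in (Real.exp l)..(Real.exp l * l), (max (s * MM y) 0 / y) ^ 2 := by
  have hll := Real.log_nonneg hl
  have hl0 : 0 < l := by linarith
  have e2 : Real.exp (l + Real.log l) = Real.exp l * l := by rw [Real.exp_add, Real.exp_log hl0]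
  have himg : Real.exp '' Icc l (l + Real.log l) = Icc (Real.exp l) (Real.exp l * l) := by
    rw [← e2]
    ext y
    constructor
    · rintro ⟨u, hu, rfl⟩
      exact ⟨Real.exp_le_exp.2 hu.1, Real.exp_le_exp.2 hu.2⟩
    · intro hy
      have hy0 : 0 < y := (Real.exp_pos _).trans_le hy.1
      refine ⟨Real.log y, ⟨?_, ?_⟩, Real.exp_log hy0⟩
      · rw [Real.le_log_iff_exp_le hy0]; exact hy.1
      · rw [Real.log_le_iff_le_exp hy0]; exact hy.2
  have hM := MM_meas
  have hm := mm_meas
  have key := integral_image_eq_integral_abs_deriv_smul (s := Icc l (l + Real.log l)) measurableSet_Icc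
    (f := Real.exp) (f' := Real.exp) (fun x _ => (Real.hasDerivAt_exp x).hasDerivWithinAt)
    Real.exp_injective.injOn (fun y => (max (s * MM y) 0 / y) ^ 2)
  rw [himg] at key
  have hle : Real.exp l ≤ Real.exp l * l := le_mul_of_one_le_right (Real.exp_pos _).le hl
  rw [intervalIntegral.integral_of_le hle, ← integral_Icc_eq_integral_Ioc, key, ← integral_const_mul]
  have hb : ∀ u, max (s * mm u) 0 ≤ |s| * Real.exp u := by
    intro u
    refine max_le ?_ (by positivity)
    refine (le_abs_self _).trans ?_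
    rw [abs_mul]
    exact mul_le_mul_of_nonneg_left (abs_mm_le u) (abs_nonneg _)
  refine setIntegral_mono_on ?_ ?_ measurableSet_Icc fun u hu => ?_
  · refine Integrable.mono' (g := fun u => (|s| * Real.exp u) ^ 2 * Real.exp (-(2 * β * u))) ?_ ?_ ?_
    · exact (by fun_prop : Continuous fun u => (|s| * Real.exp u) ^ 2 * Real.exp (-(2 * β * u))).continuousOn.integrableOn_compact isCompact_Icc
    · exact (by fun_prop : Measurable fun u => (max (s * mm u) 0) ^ 2 * Real.exp (-(2 * β * u))).aestronglyMeasurable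
    · refine ae_of_all _ fun u => ?_
      rw [Real.norm_eq_abs, abs_of_nonneg (by positivity)]
      exact mul_le_mul_of_nonneg_right (pow_le_pow_left₀ (le_max_right _ _) (hb u) 2) (Real.exp_pos _).le
  · refine Integrable.mono' (g := fun u => Real.exp (-((2 * β - 1) * l)) * (Real.exp u * (|s|) ^ 2)) ?_ ?_ ?_
    · exact (by fun_prop : Continuous fun u => Real.exp (-((2 * β - 1) * l)) * (Real.exp u * (|s|) ^ 2)).continuousOn.integrableOn_compact isCompact_Icc
    · exact (by fun_prop : Measurable fun u => Real.exp (-((2 * β - 1) * l)) * (|Real.exp u| • (max (s * MM (Real.exp u)) 0 / Real.exp u) ^ 2)).aestronglyMeasurable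
    · refine ae_of_all _ fun u => ?_
      rw [Real.norm_eq_abs, abs_of_nonneg (by positivity), smul_eq_mul, abs_of_pos (Real.exp_pos u)]
      refine mul_le_mul_of_nonneg_left (mul_le_mul_of_nonneg_left ?_ (Real.exp_pos _).le) (Real.exp_pos _).le
      refine pow_le_pow_left₀ (by positivity) ?_ 2
      rw [div_le_iff₀ (Real.exp_pos u)]
      exact hb u
  · rw [smul_eq_mul, abs_of_pos (Real.exp_pos u), div_pow]
    have e3 : Real.exp (-(2 * β * u)) ≤ Real.exp (-((2 * β - 1) * l)) * (Real.exp u * (1 / (Real.exp u) ^ 2)) := by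
      have e4 : Real.exp u * (1 / (Real.exp u) ^ 2) = Real.exp (-u) := by
        rw [Real.exp_neg]
        field_simp
      rw [e4, ← Real.exp_add]
      refine Real.exp_le_exp.2 ?_
      nlinarith [hu.1]
    have e5 : mm u = MM (Real.exp u) := rfl
    rw [e5]
    calc (max (s * MM (Real.exp u)) 0) ^ 2 * Real.exp (-(2 * β * u))
        ≤ (max (s * MM (Real.exp u)) 0) ^ 2 * (Real.exp (-((2 * β - 1) * l)) * (Real.exp u * (1 / (Real.exp u) ^ 2))) :=
          mul_le_mul_of_nonneg_left e3 (sq_nonneg _)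
      _ = _ := by ring

end

end H313.TK
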