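import Pool.Agent.H313R3.TK.I
import Pool.Agent.H370R2.Count
import Pool.Agent.H370R2.DirGood

/-!
# Existence of a zero, and the final statements
-/

open Complex MeasureTheory Filter Topology Set Metric

set_option linter.unusedSectionVars false
set_option linter.unusedVariables false
set_option autoImplicit false

namespace H313.TK

noncomputable section

theorem refl_zero (ρ : ℂ) (hz : riemannZeta ρ = 0) (h0 : 0 < ρ.re) (h1 : ρ.re < 1) : riemannZeta (1 - ρ) = 0 := by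
  rw [riemannZeta_one_sub (fun n h => by
    rw [h] at h0
    simp at h0
    have : (0:ℝ) ≤ n := Nat.cast_nonneg n
    linarith) (by rintro rfl; simp at h1), hz, mul_zero]

theorem exists_zero : ∃ ρ : ℂ, riemannZeta ρ = 0 ∧ 1 / 2 ≤ ρ.re ∧ ρ.re < 1 := by
  obtain ⟨C, T0, hC, hT0, h⟩ := H370.nn_asymp H370.good_zeta
  -- choose T large
  set T : ℝ := max T0 (Real.exp (2 * Real.pi * (C + 1))) with hT
  have hTT : T0 ≤ T := le_max_left _ _
  have h1 := h T hTT T (2 * T) le_rfl (by linarith) (by linarith) le_rfl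
  have hT1 : 0 < T := by linarith
  have hlog : 2 * Real.pi * (C + 1) ≤ Real.log T := by
    rw [Real.le_log_iff_exp_le hT1]
    exact le_max_right _ _
  have h2 : (C + 1) * T ≤ T * Real.log T / (2 * Real.pi) := by
    rw [le_div_iff₀ (by positivity)]
    nlinarith
  have h3 : (H370.NN riemannZeta T (2 * T) : ℝ) ≠ 0 := by
    intro h0
    rw [h0, zero_sub, abs_neg, abs_of_nonneg (by linarith [mul_pos (by linarith : 0 < C + 1) hT1])] at h1
    linarith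
  have h4 : H370.NN riemannZeta T (2 * T) ≠ 0 := by exact_mod_cast h3
  have h5 : (H370.zset riemannZeta T (2 * T)).Nonempty := by
    by_contra hcon
    rw [Set.not_nonempty_iff_eq_empty] at hcon
    apply h4
    unfold H370.NN
    rw [hcon]
    simp
  obtain ⟨ρ, hρ0, hρ1, _, _, hz⟩ := h5
  rcases le_total (1 / 2) ρ.re with hh | hh
  · exact ⟨ρ, hz, hh, hρ1⟩
  · exact ⟨1 - ρ, refl_zero ρ hz hρ0 hρ1, by simp; linarith, by simp; linarith⟩

theorem core1' (ρ : ℂ) (hz : riemannZeta ρ = 0) (h0 : 0 < ρ.re) (h1 : ρ.re < 1) :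
    ∃ c : ℝ, 0 < c ∧ ∀ᶠ t : ℝ in atTop, ∀ s : ℝ, s = 1 ∨ s = -1 →
      c * ((fun _ : ℝ => (1:ℝ)) t * Real.exp (ρ.re * t)) ≤ ∫ v : ℝ, max (s * mm (t - v)) 0 * kp v := by
  obtain ⟨c, hc, h⟩ := core1 ρ hz h0 h1
  exact ⟨c, hc, by simpa using h⟩

/-- the sup version in the original variable -/
theorem sup_log {β : ℝ} {Lf : ℝ → ℝ} (h : ∃ c : ℝ, 0 < c ∧ ∀ᶠ l : ℝ in atTop, ∀ s : ℝ, s = 1 ∨ s = -1 →
      ∃ u ∈ Icc l (l + Real.log l), c * (Lf (ct l) * Real.exp (β * u)) ≤ s * mm u) :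
    ∃ c : ℝ, 0 < c ∧ ∀ᶠ x : ℝ in atTop, ∀ s : ℝ, s = 1 ∨ s = -1 →
      ∃ y ∈ Icc x (x * Real.log x), c * (Lf (ct (Real.log x)) * y ^ β) ≤ s * MM y := by
  obtain ⟨c, hc, hev⟩ := h
  refine ⟨c, hc, ?_⟩
  filter_upwards [Real.tendsto_log_atTop.eventually hev, eventually_ge_atTop (Real.exp 1)] with x hx hx1 s hs
  have hx0 : 0 < x := (Real.exp_pos 1).trans_le hx1
  have hl1 : 1 ≤ Real.log x := by rwa [Real.le_log_iff_exp_le hx0]
  obtain ⟨u, hu, hu2⟩ := hx s hs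
  refine ⟨Real.exp u, ⟨?_, ?_⟩, ?_⟩
  · rw [← Real.log_le_iff_le_exp hx0]; exact hu.1
  · have h2 : Real.log (x * Real.log x) = Real.log x + Real.log (Real.log x) :=
      Real.log_mul hx0.ne' (by linarith)
    rw [← Real.le_log_iff_exp_le (by positivity), h2]
    exact hu.2
  · rw [← Real.exp_mul, mul_comm u β]
    exact hu2

/-- **Both signs in every window.** -/
theorem signs (ρ : ℂ) (hz : riemannZeta ρ = 0) (h0 : 1 / 2 ≤ ρ.re) (h1 : ρ.re < 1) :
    ∃ c : ℝ, 0 < c ∧ ∀ᶠ x : ℝ in atTop, ∀ s : ℝ, s = 1 ∨ s = -1 →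
      ∃ y ∈ Icc x (x * Real.log x), c * y ^ ρ.re ≤ s * MM y := by
  have hp : 0 < ρ.re := by linarith
  have hcore := core1' ρ hz hp h1
  have hw := win_sup ρ.re h0 h1.le (fun _ => 1) (Eventually.of_forall fun _ => le_rfl) hcore
  have h := sup_log (β := ρ.re) (Lf := fun _ => 1) hw
  obtain ⟨c, hc, h⟩ := h
  exact ⟨c, hc, by simpa using h⟩

theorem signs2 (ρ : ℂ) (hz : riemannZeta ρ = 0) (hz' : deriv riemannZeta ρ = 0) (h0 : 1 / 2 ≤ ρ.re) (h1 : ρ.re < 1) :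
    ∃ c : ℝ, 0 < c ∧ ∀ᶠ x : ℝ in atTop, ∀ s : ℝ, s = 1 ∨ s = -1 →
      ∃ y ∈ Icc x (x * Real.log x), c * (y ^ ρ.re * Real.log y) ≤ s * MM y := by
  have hp : 0 < ρ.re := by linarith
  have hcore := core2 ρ hz hz' hp h1
  have hw := win_sup ρ.re h0 h1.le (fun t => t) (eventually_ge_atTop 1) hcore
  have h := sup_log (β := ρ.re) (Lf := fun t => t) hw
  obtain ⟨c, hc, h⟩ := h
  refine ⟨c / 2, by positivity, ?_⟩
  filter_upwards [h, eventually_ge_atTop (Real.exp 1)] with x hx hx1 s hs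
  have hx0 : 0 < x := (Real.exp_pos 1).trans_le hx1
  have hl1 : 1 ≤ Real.log x := by rwa [Real.le_log_iff_exp_le hx0]
  obtain ⟨y, hy, hy2⟩ := hx s hs
  refine ⟨y, hy, ?_⟩
  have hy0 : 0 < y := hx0.trans_le hy.1
  have h5 : Real.log y ≤ 2 * ct (Real.log x) := by
    have h6 : Real.log y ≤ Real.log x + Real.log (Real.log x) := by
      rw [← Real.log_mul hx0.ne' (by linarith)]
      exact Real.log_le_log hy0 hy.2
    have h7 : Real.log (Real.log x) ≤ Real.log x := (Real.log_le_sub_one_of_pos (by linarith)).trans (by linarith)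
    have h8 : 0 ≤ Real.log (Real.log x) := Real.log_nonneg hl1
    unfold ct
    linarith
  have h6 : 0 < y ^ ρ.re := Real.rpow_pos_of_pos hy0 _
  calc c / 2 * (y ^ ρ.re * Real.log y) ≤ c / 2 * (y ^ ρ.re * (2 * ct (Real.log x))) :=
        mul_le_mul_of_nonneg_left (mul_le_mul_of_nonneg_left h5 h6.le) (by positivity)
    _ = c * (ct (Real.log x) * y ^ ρ.re) := by ring
    _ ≤ _ := hy2

/-- mean squares over the windows, original variable -/
theorem sq_low {β : ℝ} (hβ : 1 / 2 ≤ β) {Lf : ℝ → ℝ} (h : ∃ c : ℝ, 0 < c ∧ ∀ᶠ l : ℝ in atTop, ∀ s : ℝ, s = 1 ∨ s = -1 →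
      c * (Lf (ct l)) ^ 2 ≤ ∫ u in Icc l (l + Real.log l), (max (s * mm u) 0) ^ 2 * Real.exp (-(2 * β * u))) :
    ∃ c : ℝ, 0 < c ∧ ∀ᶠ x : ℝ in atTop, ∀ s : ℝ, s = 1 ∨ s = -1 →
      c * ((Lf (ct (Real.log x))) ^ 2 * x ^ (2 * β - 1)) ≤ ∫ y in x..(x * Real.log x), (max (s * MM y) 0 / y) ^ 2 := by
  obtain ⟨c, hc, hev⟩ := h
  refine ⟨c, hc, ?_⟩
  filter_upwards [Real.tendsto_log_atTop.eventually hev, eventually_ge_atTop (Real.exp 1)] with x hx hx1 s hs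
  have hx0 : 0 < x := (Real.exp_pos 1).trans_le hx1
  have hl1 : 1 ≤ Real.log x := by rwa [Real.le_log_iff_exp_le hx0]
  have h2 := sq_window β (Real.log x) s hβ hl1
  rw [Real.exp_log hx0] at h2
  have h3 := (hx s hs).trans h2
  have h4 : Real.exp (-((2 * β - 1) * Real.log x)) * x ^ (2 * β - 1) = 1 := by
    rw [Real.rpow_def_of_pos hx0, ← Real.exp_add]
    rw [show -((2 * β - 1) * Real.log x) + Real.log x * (2 * β - 1) = 0 by ring, Real.exp_zero]
  have h5 : 0 < x ^ (2 * β - 1) := Real.rpow_pos_of_pos hx0 _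
  calc c * ((Lf (ct (Real.log x))) ^ 2 * x ^ (2 * β - 1)) = (c * (Lf (ct (Real.log x))) ^ 2) * x ^ (2 * β - 1) := by ring
    _ ≤ (Real.exp (-((2 * β - 1) * Real.log x)) * ∫ y in x..(x * Real.log x), (max (s * MM y) 0 / y) ^ 2) * x ^ (2 * β - 1) :=
        mul_le_mul_of_nonneg_right h3 h5.le
    _ = (Real.exp (-((2 * β - 1) * Real.log x)) * x ^ (2 * β - 1)) * ∫ y in x..(x * Real.log x), (max (s * MM y) 0 / y) ^ 2 := by ring
    _ = _ := by rw [h4, one_mul]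

theorem sq_low1 (ρ : ℂ) (hz : riemannZeta ρ = 0) (h0 : 1 / 2 ≤ ρ.re) (h1 : ρ.re < 1) :
    ∃ c : ℝ, 0 < c ∧ ∀ᶠ x : ℝ in atTop, ∀ s : ℝ, s = 1 ∨ s = -1 →
      c * x ^ (2 * ρ.re - 1) ≤ ∫ y in x..(x * Real.log x), (max (s * MM y) 0 / y) ^ 2 := by
  have hp : 0 < ρ.re := by linarith
  have hcore := core1' ρ hz hp h1
  have hw := win_sq ρ.re h0 h1.le (fun _ => 1) (Eventually.of_forall fun _ => le_rfl) hcore
  have h := sq_low (β := ρ.re) h0 (Lf := fun _ => 1) hw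
  obtain ⟨c, hc, h⟩ := h
  exact ⟨c, hc, by simpa using h⟩

theorem sq_low2 (ρ : ℂ) (hz : riemannZeta ρ = 0) (hz' : deriv riemannZeta ρ = 0) (h0 : 1 / 2 ≤ ρ.re) (h1 : ρ.re < 1) :
    ∃ c : ℝ, 0 < c ∧ ∀ᶠ x : ℝ in atTop, ∀ s : ℝ, s = 1 ∨ s = -1 →
      c * ((Real.log x) ^ 2 * x ^ (2 * ρ.re - 1)) ≤ ∫ y in x..(x * Real.log x), (max (s * MM y) 0 / y) ^ 2 := by
  have hp : 0 < ρ.re := by linarith
  have hcore := core2 ρ hz hz' hp h1
  have hw := win_sq ρ.re h0 h1.le (fun t => t) (eventually_ge_atTop 1) hcore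
  have h := sq_low (β := ρ.re) h0 (Lf := fun t => t) hw
  obtain ⟨c, hc, h⟩ := h
  refine ⟨c, hc, ?_⟩
  filter_upwards [h, eventually_ge_atTop (Real.exp 1)] with x hx hx1 s hs
  have hx0 : 0 < x := (Real.exp_pos 1).trans_le hx1
  have hl1 : 1 ≤ Real.log x := by rwa [Real.le_log_iff_exp_le hx0]
  refine le_trans ?_ (hx s hs)
  refine mul_le_mul_of_nonneg_left (mul_le_mul_of_nonneg_right ?_ (Real.rpow_nonneg hx0.le _)) hc.le
  refine pow_le_pow_left₀ (by linarith) ?_ 2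
  unfold ct
  have h8 : 0 ≤ Real.log (Real.log x) := Real.log_nonneg hl1
  linarith

/-- the one-sided weak Mertens bound on sparse windows -/
theorem weak_one (s : ℝ) (hs : s = 1 ∨ s = -1)
    (h : ∀ ε : ℝ, 0 < ε → ∃ᶠ x : ℝ in atTop,
      ∫ y in x..(x * Real.log x), (max (s * MM y) 0 / y) ^ 2 ≤ ε * (Real.log x) ^ 2)
    (ρ : ℂ) (hz : riemannZeta ρ = 0) (h0 : 0 < ρ.re) (h1 : ρ.re < 1) : ρ.re = 1 / 2 ∧ deriv riemannZeta ρ ≠ 0 := by
  have key : ∀ ρ : ℂ, riemannZeta ρ = 0 → ρ.re < 1 → ρ.re ≤ 1 / 2 := by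
    intro ρ hz h1
    by_contra hcon
    push Not at hcon
    obtain ⟨c, hc, hev⟩ := sq_low1 ρ hz hcon.le h1
    have hgrow : ∀ᶠ x : ℝ in atTop, (Real.log x) ^ 2 < c * x ^ (2 * ρ.re - 1) := by
      have h3 := isLittleO_log_rpow_atTop (show 0 < (2 * ρ.re - 1) / 2 by linarith)
      have h4 := h3.def (show 0 < Real.sqrt c / 2 by positivity)
      filter_upwards [h4, eventually_gt_atTop 1] with x hx hx1
      have hx0 : 0 < x := by linarith
      have hl0 : 0 < Real.log x := Real.log_pos hx1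
      rw [Real.norm_eq_abs, Real.norm_eq_abs, abs_of_pos hl0, abs_of_pos (Real.rpow_pos_of_pos hx0 _)] at hx
      have h5 := pow_le_pow_left₀ hl0.le hx 2
      have h6 : (Real.sqrt c / 2 * x ^ ((2 * ρ.re - 1) / 2)) ^ 2 = c / 4 * x ^ (2 * ρ.re - 1) := by
        have h61 : (x ^ ((2 * ρ.re - 1) / 2)) ^ 2 = x ^ (2 * ρ.re - 1) := by
          rw [sq, ← Real.rpow_add hx0]
          congr 1
          ring
        rw [mul_pow, div_pow, Real.sq_sqrt hc.le, h61]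
        norm_num
      rw [h6] at h5
      have h7 : 0 < x ^ (2 * ρ.re - 1) := Real.rpow_pos_of_pos hx0 _
      have h8 : 0 < c * x ^ (2 * ρ.re - 1) := by positivity
      nlinarith
    obtain ⟨x, hx1, hx2, hx3⟩ := ((h 1 one_pos).and_eventually (hev.and hgrow)).exists
    have := hx2 s hs
    linarith
  have hle := key ρ hz h1
  have hge := key (1 - ρ) (refl_zero ρ hz h0 h1) (by simp; linarith)
  have hre : ρ.re = 1 / 2 := by
    simp at hge
    linarith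
  refine ⟨hre, fun hz' => ?_⟩
  obtain ⟨c, hc, hev⟩ := sq_low2 ρ hz hz' hre.ge h1
  obtain ⟨x, hx1, hx2, hx3⟩ := ((h (c / 2) (by positivity)).and_eventually (hev.and (eventually_gt_atTop (1:ℝ)))).exists
  have h5 := hx2 s hs
  rw [hre] at h5
  norm_num at h5
  have h6 : 0 < Real.log x := Real.log_pos hx3
  have h7 : 0 < c * Real.log x ^ 2 := by positivity
  linarith

end

end H313.TK
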