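import Pool.Agent.H313R3.TK.J

/-!
# Zeros of arbitrary multiplicity
-/

open Complex MeasureTheory Filter Topology Set Metric

set_option linter.unusedSectionVars false
set_option linter.unusedVariables false
set_option autoImplicit false

namespace H313.TK

noncomputable section

/-- the transform -/
def Tr (g : ℝ → ℂ) (s : ℂ) : ℂ := ∫ v : ℝ, cexp (-s * v) * g v

theorem DK.bd3 {g : ℝ → ℂ} (hg : DK g) : ∃ C : ℝ, 0 ≤ C ∧ ∀ v, ‖g v‖ ≤ C * Real.exp (-(3 * |v|)) := by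
  obtain ⟨C, hC, hb⟩ := hg.bd
  refine ⟨C * 4, by positivity, fun v => (hb v).trans ?_⟩
  rw [mul_assoc]
  refine mul_le_mul_of_nonneg_left ?_ hC
  have h1 := W_decay v
  have h2 : Real.exp (-(3 * |v|)) * Real.exp (2 * |v|) = Real.exp (-|v|) := by
    rw [← Real.exp_add]; congr 1; ring
  have h3 := Real.exp_pos (2 * |v|)
  have h4 : W v * Real.exp (2 * |v|) ≤ 4 * Real.exp (-(3 * |v|)) * Real.exp (2 * |v|) := by
    rw [mul_assoc, h2]; exact h1
  exact le_of_mul_le_mul_right h4 h3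

theorem Tr_diff {g : ℝ → ℂ} (hg : DK g) (s : ℂ) (hs : |s.re| < 3) : DifferentiableAt ℂ (Tr g) s := by
  obtain ⟨C, hC, hb⟩ := hg.bd3
  exact (tr_diff hg.cont C 3 hC hb s hs).differentiableAt

theorem Ist_deriv {g : ℝ → ℂ} (hc : Continuous g) (ρ : ℂ)
    (hi : ∀ v, IntegrableOn (fun z : ℝ => cexp (-ρ * z) * g z) (Iic v)) (v : ℝ) :
    HasDerivAt (Ist ρ g) (ρ * Ist ρ g v + g v) v := by
  have h1 := prim_cont (by fun_prop : Continuous fun z : ℝ => cexp (-ρ * z) * g z) hi v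
  have h0 : HasDerivAt (fun v : ℝ => (v : ℂ)) 1 v := (hasDerivAt_id v).ofReal_comp
  have h2 : HasDerivAt (fun v : ℝ => ρ * (v : ℂ)) (ρ * 1) v := h0.const_mul ρ
  refine (h2.cexp.mul h1).congr_deriv ?_
  unfold Ist
  have h3 : cexp (ρ * v) * (cexp (-ρ * v) * g v) = g v := tw_cancel ρ v (g v)
  rw [h3]
  ring

theorem Tr_Ist {g : ℝ → ℂ} (hg : DK g) (ρ s : ℂ) (hρ : |ρ.re| ≤ 2) (hs : |s.re| ≤ 2) (hD : DK (Ist ρ g)) :
    (s - ρ) * Tr (Ist ρ g) s = Tr g s := by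
  have hI := tw_int hg ρ hρ
  have i1 := tw_int hD s hs
  have i2 := tw_int hg s hs
  have hd : ∀ v : ℝ, HasDerivAt (fun v : ℝ => cexp (-s * v) * Ist ρ g v)
      ((ρ - s) * (cexp (-s * v) * Ist ρ g v) + cexp (-s * v) * g v) v := by
    intro v
    have h0 : HasDerivAt (fun v : ℝ => (v : ℂ)) 1 v := (hasDerivAt_id v).ofReal_comp
    have h2 : HasDerivAt (fun v : ℝ => -s * (v : ℂ)) (-s * 1) v := h0.const_mul (-s)
    refine (h2.cexp.mul (Ist_deriv hg.cont ρ (fun v => hI.integrableOn) v)).congr_deriv ?_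
    ring
  have h := integral_eq_zero_of_hasDerivAt_of_integrable hd ((i1.const_mul _).add i2) i1
  rw [integral_add (i1.const_mul _) i2, integral_const_mul] at h
  unfold Tr
  linear_combination -h

/-- **Iterated kernels are dominated, up to the multiplicity of the zero.** -/
theorem iter_DK (ρ : ℂ) (h0 : 0 < ρ.re) (h1 : ρ.re < 1) (m : ℕ) (hm : (m : ℕ∞) ≤ analyticOrderAt riemannZeta ρ) :
    ∀ j : ℕ, j ≤ m → DK ((Ist ρ)^[j] kc) ∧
      ∀ s : ℂ, 0 < s.re → s.re < 1 → (s - ρ) ^ j * Tr ((Ist ρ)^[j] kc) s = riemannZeta s * qh s := by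
  have hne : ρ ≠ 1 := by rintro rfl; simp at h1
  have han : AnalyticAt ℂ riemannZeta ρ := by
    rw [Complex.analyticAt_iff_eventually_differentiableAt]
    filter_upwards [isOpen_ne.mem_nhds hne] with z hz
    exact differentiableAt_riemannZeta hz
  rw [natCast_le_analyticOrderAt han] at hm
  obtain ⟨f, hf, hfe⟩ := hm
  have hρ2 : |ρ.re| ≤ 2 := by rw [abs_of_pos h0]; linarith
  intro j
  induction j with
  | zero =>
    intro _
    refine ⟨kc_DK, fun s hs0 hs1 => ?_⟩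
    rw [pow_zero, one_mul, Function.iterate_zero, id]
    exact Kh_eq s hs0 (by linarith) (by rintro rfl; simp at hs1)
  | succ j ih =>
    intro hj
    obtain ⟨hD, hform⟩ := ih (by omega)
    have hT0 : Tr ((Ist ρ)^[j] kc) ρ = 0 := by
      have c1 : Tendsto (Tr ((Ist ρ)^[j] kc)) (𝓝[≠] ρ) (𝓝 (Tr ((Ist ρ)^[j] kc) ρ)) :=
        (Tr_diff hD ρ (by linarith [hρ2])).continuousAt.tendsto.mono_left nhdsWithin_le_nhds
      have c2 : Tendsto (fun s : ℂ => (s - ρ) ^ (m - j) * (f s * qh s)) (𝓝[≠] ρ) (𝓝 0) := by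
        have hq : ContinuousAt qh ρ := (qh_deriv ρ (by rw [abs_of_pos h0]; linarith)).continuousAt
        have hcont : ContinuousAt (fun s : ℂ => (s - ρ) ^ (m - j) * (f s * qh s)) ρ := by
          have : ContinuousAt f ρ := hf.continuousAt
          exact (((continuousAt_id.sub continuousAt_const).pow _)).mul (this.mul hq)
        have h5 := hcont.tendsto
        simp only [sub_self] at h5
        rw [zero_pow (by omega), zero_mul] at h5
        exact h5.mono_left nhdsWithin_le_nhds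
      refine tendsto_nhds_unique (c1.congr' ?_) c2
      have hU : ∀ᶠ s in 𝓝 ρ, 0 < s.re ∧ s.re < 1 :=
        ((isOpen_lt continuous_const Complex.continuous_re).inter
          (isOpen_lt Complex.continuous_re continuous_const)).mem_nhds ⟨h0, h1⟩
      filter_upwards [(hU.and hfe).filter_mono nhdsWithin_le_nhds, self_mem_nhdsWithin] with s hs hsne
      obtain ⟨⟨hs0, hs1⟩, hs2⟩ := hs
      have h6 := hform s hs0 hs1
      have hne' : s - ρ ≠ 0 := sub_ne_zero.2 hsne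
      have hp : (s - ρ) ^ j ≠ 0 := pow_ne_zero _ hne'
      apply mul_left_cancel₀ hp
      rw [h6, hs2, smul_eq_mul, ← mul_assoc ((s - ρ) ^ j), ← pow_add, show j + (m - j) = m by omega]
      ring
    rw [Function.iterate_succ_apply']
    have hD' : DK (Ist ρ ((Ist ρ)^[j] kc)) := Ist_DK hD ρ hρ2 hT0
    refine ⟨hD', fun s hs0 hs1 => ?_⟩
    rw [pow_succ, mul_assoc, Tr_Ist hD ρ s hρ2 (by rw [abs_of_pos hs0]; linarith) hD']
    exact hform s hs0 hs1

theorem iter_QQ (ρ : ℂ) (h1 : ρ.re < 1) (j : ℕ) : QQ ((Ist ρ)^[j] qc) := by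
  induction j with
  | zero => exact qc_QQ
  | succ j ih =>
    rw [Function.iterate_succ_apply']
    exact Ist_QQ ih ρ (by linarith)

theorem iter_Sg (ρ : ℂ) (h1 : ρ.re < 1) (j : ℕ) : Sg ((Ist ρ)^[j] qc) = (Ist ρ)^[j] kc := by
  induction j with
  | zero => exact kc_eq.symm
  | succ j ih =>
    rw [Function.iterate_succ_apply', Function.iterate_succ_apply', ← ih]
    funext v
    exact (Sg_Ist (iter_QQ ρ h1 j) ρ (by linarith) v).symm

/-- asymptotics of the iterates -/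
theorem iter_asy (ρ : ℂ) (h0 : 0 < ρ.re) (h1 : ρ.re < 1) (r : ℕ) : ∃ C : ℝ, 0 ≤ C ∧ ∀ z : ℝ, 0 ≤ z →
    ‖cexp (-ρ * z) * (Ist ρ)^[r + 2] qc z - qh ρ / ((r + 1).factorial : ℂ) * (z : ℂ) ^ (r + 1)‖ ≤ C * (1 + z) ^ r := by
  induction r with
  | zero =>
    obtain ⟨C, hC, hb⟩ := q2_asy ρ h0 h1
    refine ⟨C, hC, fun z hz => ?_⟩
    have := hb z hz
    simp only [zero_add, pow_zero, mul_one, pow_one, Nat.factorial_one, Nat.cast_one, div_one]
    exact this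
  | succ r ih =>
    obtain ⟨C, hC, hb⟩ := ih
    have hQ := iter_QQ ρ h1 (r + 2)
    set g := (Ist ρ)^[r + 2] qc with hg
    have hgs : (Ist ρ)^[r + 1 + 2] qc = Ist ρ g := by
      rw [hg, ← Function.iterate_succ_apply' (Ist ρ)]
    rw [hgs]
    have hi : ∀ v : ℝ, IntegrableOn (fun z : ℝ => cexp (-ρ * z) * g z) (Iic v) := hQ.int ρ (by linarith)
    set a : ℂ := ∫ z in Iic (0:ℝ), cexp (-ρ * z) * g z with ha
    refine ⟨‖a‖ + C, by positivity, fun z hz => ?_⟩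
    have e1 : cexp (-ρ * z) * Ist ρ g z = ∫ y in Iic z, cexp (-ρ * y) * g y := by
      rw [Ist, ← mul_assoc, ← Complex.exp_add, show -ρ * (z : ℂ) + ρ * z = 0 by ring, Complex.exp_zero, one_mul]
    have e2 := intervalIntegral.integral_Iic_sub_Iic (hi 0) (hi z)
    have hcont := hQ.cont
    have hi1 : IntervalIntegrable (fun y : ℝ => cexp (-ρ * y) * g y) volume 0 z :=
      (by fun_prop : Continuous fun y : ℝ => cexp (-ρ * y) * g y).intervalIntegrable _ _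
    set K : ℂ := qh ρ / ((r + 1).factorial : ℂ) with hK
    have hi2 : IntervalIntegrable (fun y : ℝ => K * (y : ℂ) ^ (r + 1)) volume 0 z :=
      (by fun_prop : Continuous fun y : ℝ => K * (y : ℂ) ^ (r + 1)).intervalIntegrable _ _
    have e3 : ‖∫ y in (0:ℝ)..z, (cexp (-ρ * y) * g y - K * (y : ℂ) ^ (r + 1))‖ ≤ C * (1 + z) ^ r * |z - 0| := by
      refine intervalIntegral.norm_integral_le_of_norm_le_const fun y hy => ?_
      rw [uIoc_of_le hz] at hy
      refine (hb y hy.1.le).trans (mul_le_mul_of_nonneg_left ?_ hC)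
      exact pow_le_pow_left₀ (by linarith [hy.1]) (by linarith [hy.2]) _
    have e4 : ∫ y in (0:ℝ)..z, K * (y : ℂ) ^ (r + 1) = qh ρ / ((r + 1 + 1).factorial : ℂ) * (z : ℂ) ^ (r + 1 + 1) := by
      rw [intervalIntegral.integral_const_mul]
      have h5 : ∫ y in (0:ℝ)..z, (y : ℂ) ^ (r + 1) = (z : ℂ) ^ (r + 1 + 1) / ((r + 1 + 1 : ℕ) : ℂ) := by
        have h : ∀ y : ℝ, HasDerivAt (fun y : ℝ => (y : ℂ) ^ (r + 1 + 1) / ((r + 1 + 1 : ℕ) : ℂ)) ((y : ℂ) ^ (r + 1)) y := by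
          intro y
          have h0 : HasDerivAt (fun y : ℝ => (y : ℂ)) 1 y := (hasDerivAt_id y).ofReal_comp
          refine ((h0.pow (r + 1 + 1)).div_const _).congr_deriv ?_
          have : ((r + 1 + 1 : ℕ) : ℂ) ≠ 0 := Nat.cast_ne_zero.2 (by omega)
          simp only [Nat.add_sub_cancel, mul_one]
          field_simp
        rw [intervalIntegral.integral_eq_sub_of_hasDerivAt (fun y _ => h y)
          ((by fun_prop : Continuous fun y : ℝ => (y : ℂ) ^ (r + 1)).intervalIntegrable _ _)]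
        simp
      rw [h5, hK]
      have f1 : ((r + 1).factorial : ℂ) ≠ 0 := Nat.cast_ne_zero.2 (Nat.factorial_ne_zero _)
      have f2 : ((r + 1 + 1).factorial : ℂ) = ((r + 1 + 1 : ℕ) : ℂ) * ((r + 1).factorial : ℂ) := by
        rw [Nat.factorial_succ (r + 1)]
        push_cast
        ring
      have f3 : ((r + 1 + 1 : ℕ) : ℂ) ≠ 0 := Nat.cast_ne_zero.2 (by omega)
      rw [f2]
      field_simp
    rw [intervalIntegral.integral_sub hi1 hi2, e4, sub_zero, abs_of_nonneg hz] at e3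
    have e5 : cexp (-ρ * z) * Ist ρ g z - qh ρ / ((r + 1 + 1).factorial : ℂ) * (z : ℂ) ^ (r + 1 + 1) =
        a + ((∫ y in (0:ℝ)..z, cexp (-ρ * y) * g y) - qh ρ / ((r + 1 + 1).factorial : ℂ) * (z : ℂ) ^ (r + 1 + 1)) := by
      rw [e1, ← e2, ha]
      ring
    rw [e5]
    refine (norm_add_le _ _).trans ?_
    have h7 : 1 ≤ (1 + z) ^ (r + 1) := one_le_pow₀ (by linarith)
    have h8 : C * (1 + z) ^ r * z ≤ C * (1 + z) ^ (r + 1) := by
      rw [pow_succ, ← mul_assoc]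
      exact mul_le_mul_of_nonneg_left (by linarith) (by positivity)
    have h9 : ‖a‖ ≤ ‖a‖ * (1 + z) ^ (r + 1) := le_mul_of_one_le_right (norm_nonneg _) h7
    calc ‖a‖ + _ ≤ ‖a‖ * (1 + z) ^ (r + 1) + C * (1 + z) ^ (r + 1) := add_le_add h9 (e3.trans h8)
      _ = _ := by ring

/-- asymptotics of the primitives -/
theorem prim_asy (ρ : ℂ) (h0 : 0 < ρ.re) (h1 : ρ.re < 1) (r : ℕ) : ∃ C : ℝ, 0 ≤ C ∧ ∀ t : ℝ, 0 ≤ t →
    ‖(∫ z in Iic t, (Ist ρ)^[r + 2] qc z) - qh ρ / ρ / ((r + 1).factorial : ℂ) * ((t : ℂ) ^ (r + 1) * cexp (ρ * t))‖ ≤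
      C * ((1 + t) ^ r * Real.exp (ρ.re * t)) := by
  have hρ : ρ ≠ 0 := by rintro rfl; simp at h0
  induction r with
  | zero =>
    obtain ⟨C, hC, hb⟩ := G2_asy ρ h0 h1
    refine ⟨C, hC, fun t ht => ?_⟩
    have := hb t ht
    simp only [zero_add, pow_zero, mul_one, pow_one, Nat.factorial_one, Nat.cast_one, div_one, one_mul]
    exact this
  | succ r ih =>
    obtain ⟨C, hC, hb⟩ := ih
    obtain ⟨C2, hC2, hb2⟩ := iter_asy ρ h0 h1 (r + 1)
    have hQ := iter_QQ ρ h1 (r + 2)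
    set g := (Ist ρ)^[r + 2] qc with hg
    have hgs : (Ist ρ)^[r + 1 + 2] qc = Ist ρ g := by
      rw [hg, ← Function.iterate_succ_apply' (Ist ρ)]
    rw [hgs] at hb2 ⊢
    have hQ' : QQ (Ist ρ g) := Ist_QQ hQ ρ (by linarith)
    set a : ℂ := ρ * (∫ z in Iic (0:ℝ), Ist ρ g z) - Ist ρ g 0 + (∫ z in Iic (0:ℝ), g z) with ha
    set A : ℝ := ‖qh ρ / ρ / ((r + 1).factorial : ℂ)‖ with hA
    refine ⟨(‖a‖ + C2 + (C + A)) / ‖ρ‖, by positivity, fun t ht => ?_⟩
    -- the recursion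
    have hrec : ρ * (∫ z in Iic t, Ist ρ g z) = Ist ρ g t - (∫ z in Iic t, g z) + a := by
      have e1 := intervalIntegral.integral_Iic_sub_Iic (hQ'.int0 0) (hQ'.int0 t)
      have e2 := intervalIntegral.integral_Iic_sub_Iic (hQ.int0 0) (hQ.int0 t)
      have hi1 : IntervalIntegrable (Ist ρ g) volume 0 t := hQ'.cont.intervalIntegrable _ _
      have hi2 : IntervalIntegrable g volume 0 t := hQ.cont.intervalIntegrable _ _
      have e3 := intervalIntegral.integral_eq_sub_of_hasDerivAt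
        (fun z _ => Ist_deriv hQ.cont ρ (hQ.int ρ (by linarith)) z) ((hi1.const_mul ρ).add hi2)
      rw [intervalIntegral.integral_add (hi1.const_mul ρ) hi2, intervalIntegral.integral_const_mul, ← e1, ← e2] at e3
      rw [ha]
      linear_combination e3
    have k1 := hb2 t ht
    have k2 := hb t ht
    have hE : 1 ≤ Real.exp (ρ.re * t) := Real.one_le_exp (by positivity)
    have hP : 1 ≤ (1 + t) ^ (r + 1) := one_le_pow₀ (by linarith)
    set E := Real.exp (ρ.re * t) with hEdef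
    set P := (1 + t) ^ (r + 1) with hPdef
    have hPr : (1 + t) ^ r ≤ P := pow_le_pow_right₀ (by linarith) (by omega)
    have htr : t ^ (r + 1) ≤ P := pow_le_pow_left₀ ht (by linarith) _
    have k3 : ‖Ist ρ g t - qh ρ / ((r + 1 + 1).factorial : ℂ) * (t : ℂ) ^ (r + 1 + 1) * cexp (ρ * t)‖ ≤ C2 * (P * E) := by
      have h6 : Ist ρ g t - qh ρ / ((r + 1 + 1).factorial : ℂ) * (t : ℂ) ^ (r + 1 + 1) * cexp (ρ * t) =
          cexp (ρ * t) * (cexp (-ρ * t) * Ist ρ g t - qh ρ / ((r + 1 + 1).factorial : ℂ) * (t : ℂ) ^ (r + 1 + 1)) := by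
        rw [mul_sub, tw_cancel]
        ring
      rw [h6, norm_mul, norm_tw']
      calc E * _ ≤ E * (C2 * P) := mul_le_mul_of_nonneg_left k1 (Real.exp_pos _).le
        _ = _ := by ring
    have k4 : ‖∫ z in Iic t, g z‖ ≤ (C + A) * (P * E) := by
      have h7 : ‖∫ z in Iic t, g z‖ ≤ ‖(∫ z in Iic t, g z) - qh ρ / ρ / ((r + 1).factorial : ℂ) *
          ((t : ℂ) ^ (r + 1) * cexp (ρ * t))‖ + ‖qh ρ / ρ / ((r + 1).factorial : ℂ) * ((t : ℂ) ^ (r + 1) * cexp (ρ * t))‖ := by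
        refine le_trans (le_of_eq ?_) (norm_add_le _ _)
        congr 1
        ring
      have h8 : ‖qh ρ / ρ / ((r + 1).factorial : ℂ) * ((t : ℂ) ^ (r + 1) * cexp (ρ * t))‖ = A * (t ^ (r + 1) * E) := by
        rw [norm_mul, norm_mul, norm_pow, norm_tw', Complex.norm_real, Real.norm_eq_abs, abs_of_nonneg ht]
      rw [h8] at h7
      have h9 : C * ((1 + t) ^ r * E) ≤ C * (P * E) :=
        mul_le_mul_of_nonneg_left (mul_le_mul_of_nonneg_right hPr (Real.exp_pos _).le) hC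
      have h10 : A * (t ^ (r + 1) * E) ≤ A * (P * E) :=
        mul_le_mul_of_nonneg_left (mul_le_mul_of_nonneg_right htr (Real.exp_pos _).le) (norm_nonneg _)
      calc _ ≤ C * (P * E) + A * (P * E) := h7.trans (add_le_add (k2.trans h9) h10)
        _ = _ := by ring
    have k5 : ‖a‖ ≤ ‖a‖ * (P * E) := by
      refine le_mul_of_one_le_right (norm_nonneg _) ?_
      calc (1:ℝ) = 1 * 1 := by ring
        _ ≤ P * E := mul_le_mul hP hE (by norm_num) (by linarith)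
    have hρn : 0 < ‖ρ‖ := norm_pos_iff.2 hρ
    rw [div_mul_eq_mul_div (‖a‖ + C2 + (C + A)) ‖ρ‖ (P * E), le_div_iff₀ hρn, mul_comm, ← norm_mul]
    have k6 : ρ * ((∫ z in Iic t, Ist ρ g z) - qh ρ / ρ / ((r + 1 + 1).factorial : ℂ) *
        ((t : ℂ) ^ (r + 1 + 1) * cexp (ρ * t))) =
        a + (Ist ρ g t - qh ρ / ((r + 1 + 1).factorial : ℂ) * (t : ℂ) ^ (r + 1 + 1) * cexp (ρ * t)) -
          (∫ z in Iic t, g z) := by
      rw [mul_sub, hrec]
      field_simp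
      ring
    rw [k6]
    calc _ ≤ ‖a + (Ist ρ g t - qh ρ / ((r + 1 + 1).factorial : ℂ) * (t : ℂ) ^ (r + 1 + 1) * cexp (ρ * t))‖ +
          ‖∫ z in Iic t, g z‖ := norm_sub_le _ _
      _ ≤ (‖a‖ + ‖Ist ρ g t - qh ρ / ((r + 1 + 1).factorial : ℂ) * (t : ℂ) ^ (r + 1 + 1) * cexp (ρ * t)‖) +
          ‖∫ z in Iic t, g z‖ := add_le_add (norm_add_le _ _) le_rfl
      _ ≤ (‖a‖ * (P * E) + C2 * (P * E)) + (C + A) * (P * E) := add_le_add (add_le_add k5 k3) k4
      _ = _ := by ring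

/-- **Core inequality for a zero of multiplicity at least `m`.** -/
theorem core_m (ρ : ℂ) (h0 : 0 < ρ.re) (h1 : ρ.re < 1) (m : ℕ) (hm1 : 1 ≤ m)
    (hm : (m : ℕ∞) ≤ analyticOrderAt riemannZeta ρ) :
    ∃ c : ℝ, 0 < c ∧ ∀ᶠ t : ℝ in atTop, ∀ s : ℝ, s = 1 ∨ s = -1 →
      c * (t ^ (m - 1) * Real.exp (ρ.re * t)) ≤ ∫ v : ℝ, max (s * mm (t - v)) 0 * kp v := by
  have hne : ρ ≠ 1 := by rintro rfl; simp at h1
  have han : AnalyticAt ℂ riemannZeta ρ := by
    rw [Complex.analyticAt_iff_eventually_differentiableAt]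
    filter_upwards [isOpen_ne.mem_nhds hne] with z hz
    exact differentiableAt_riemannZeta hz
  have hz : riemannZeta ρ = 0 := by
    have h3 : analyticOrderAt riemannZeta ρ ≠ 0 := by
      intro h
      rw [h] at hm
      have : (m : ℕ∞) ≤ (0 : ℕ) := by simpa using hm
      have := Nat.cast_le.1 this
      omega
    by_contra hcon
    exact h3 (han.analyticOrderAt_eq_zero.2 hcon)
  obtain ⟨r, rfl⟩ : ∃ r, m = r + 1 := ⟨m - 1, by omega⟩
  rcases Nat.eq_zero_or_pos r with hr | hr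
  · subst hr
    obtain ⟨c, hc, h⟩ := core1 ρ hz h0 h1
    exact ⟨c, hc, by simpa using h⟩
  obtain ⟨k, rfl⟩ : ∃ k, r = k + 1 := ⟨r - 1, by omega⟩
  have hρ : ρ ≠ 0 := by rintro rfl; simp at h0
  have hQ := iter_QQ ρ h1 (k + 2)
  have hD : DK (Sg ((Ist ρ)^[k + 2] qc)) := by
    rw [iter_Sg ρ h1]
    exact (iter_DK ρ h0 h1 (k + 1 + 1) hm (k + 2) le_rfl).1
  obtain ⟨c, hc, C, hcore⟩ := parts_of _ hQ hD
  obtain ⟨C1, hC1, hasy⟩ := prim_asy ρ h0 h1 k
  set A : ℝ := ‖qh ρ / ρ / ((k + 1).factorial : ℂ)‖ with hA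
  have hA0 : 0 < A := norm_pos_iff.2 (div_ne_zero (div_ne_zero (qh_ne ρ h0 h1) hρ)
    (Nat.cast_ne_zero.2 (Nat.factorial_ne_zero _)))
  refine ⟨c * A / 2, by positivity, ?_⟩
  filter_upwards [eventually_ge_atTop ((c * (C1 * 2 ^ k) + |C|) / (c * A / 2)), eventually_ge_atTop (1:ℝ)]
    with t ht1 ht2 s hs
  have ht0 : 0 < t := by linarith
  rw [div_le_iff₀ (by positivity)] at ht1
  have k1 := hcore t s hs
  have k2 := hasy t ht0.le
  have hE : 1 ≤ Real.exp (ρ.re * t) := Real.one_le_exp (by positivity)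
  rw [show k + 1 + 1 - 1 = k + 1 by omega]
  set E := Real.exp (ρ.re * t) with hEdef
  have hP : 1 ≤ t ^ k := one_le_pow₀ ht2
  have hP2 : (1 + t) ^ k ≤ 2 ^ k * t ^ k := by
    rw [← mul_pow]
    exact pow_le_pow_left₀ (by linarith) (by linarith) _
  have k3 : A * (t ^ (k + 1) * E) - C1 * (2 ^ k * t ^ k * E) ≤ ‖∫ z in Iic t, (Ist ρ)^[k + 2] qc z‖ := by
    have k4 : ‖qh ρ / ρ / ((k + 1).factorial : ℂ) * ((t : ℂ) ^ (k + 1) * cexp (ρ * t))‖ = A * (t ^ (k + 1) * E) := by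
      rw [norm_mul, norm_mul, norm_pow, norm_tw', Complex.norm_real, Real.norm_eq_abs, abs_of_pos ht0]
    have k5 : ‖qh ρ / ρ / ((k + 1).factorial : ℂ) * ((t : ℂ) ^ (k + 1) * cexp (ρ * t))‖ ≤
        ‖∫ z in Iic t, (Ist ρ)^[k + 2] qc z‖ +
        ‖(∫ z in Iic t, (Ist ρ)^[k + 2] qc z) - qh ρ / ρ / ((k + 1).factorial : ℂ) * ((t : ℂ) ^ (k + 1) * cexp (ρ * t))‖ := by
      rw [← norm_neg ((∫ z in Iic t, (Ist ρ)^[k + 2] qc z) - _)]
      refine le_trans (le_of_eq ?_) (norm_add_le _ _)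
      congr 1
      ring
    rw [k4] at k5
    have k6 : C1 * ((1 + t) ^ k * E) ≤ C1 * (2 ^ k * t ^ k * E) :=
      mul_le_mul_of_nonneg_left (mul_le_mul_of_nonneg_right hP2 (by linarith)) hC1
    linarith
  have k6 := mul_le_mul_of_nonneg_left k3 hc.le
  have k8 := le_abs_self C
  have hPE : 1 ≤ t ^ k * E := by
    calc (1:ℝ) = 1 * 1 := by ring
      _ ≤ t ^ k * E := mul_le_mul hP hE (by norm_num) (by linarith)
  have k9 : (c * (C1 * 2 ^ k) + |C|) * (t ^ k * E) ≤ t * (c * A / 2) * (t ^ k * E) :=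
    mul_le_mul_of_nonneg_right ht1 (by linarith)
  have k10 : |C| ≤ |C| * (t ^ k * E) := le_mul_of_one_le_right (abs_nonneg _) hPE
  have k11 : t ^ (k + 1) = t * t ^ k := by ring
  rw [k11] at k6 ⊢
  calc c * A / 2 * (t * t ^ k * E) ≤ c * (A * (t * t ^ k * E) - C1 * (2 ^ k * t ^ k * E)) - |C| := by
        nlinarith
    _ ≤ c * ‖∫ z in Iic t, (Ist ρ)^[k + 2] qc z‖ - C := by linarith
    _ ≤ _ := k1

/-- **Both signs in every window, multiplicity version.** -/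
theorem signs_m (ρ : ℂ) (h0 : 1 / 2 ≤ ρ.re) (h1 : ρ.re < 1) (m : ℕ) (hm1 : 1 ≤ m)
    (hm : (m : ℕ∞) ≤ analyticOrderAt riemannZeta ρ) :
    ∃ c : ℝ, 0 < c ∧ ∀ᶠ x : ℝ in atTop, ∀ s : ℝ, s = 1 ∨ s = -1 →
      ∃ y ∈ Icc x (x * Real.log x), c * (y ^ ρ.re * Real.log y ^ (m - 1)) ≤ s * MM y := by
  have hp : 0 < ρ.re := by linarith
  have hcore := core_m ρ hp h1 m hm1 hm
  have hL : ∀ᶠ t : ℝ in atTop, 1 ≤ (fun t : ℝ => t ^ (m - 1)) t := by
    filter_upwards [eventually_ge_atTop (1:ℝ)] with t ht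
    exact one_le_pow₀ ht
  have hw := win_sup ρ.re h0 h1.le (fun t => t ^ (m - 1)) hL hcore
  have h := sup_log (β := ρ.re) (Lf := fun t => t ^ (m - 1)) hw
  obtain ⟨c, hc, h⟩ := h
  refine ⟨c / 2 ^ (m - 1), by positivity, ?_⟩
  filter_upwards [h, eventually_ge_atTop (Real.exp 1)] with x hx hx1 s hs
  have hx0 : 0 < x := (Real.exp_pos 1).trans_le hx1
  have hl1 : 1 ≤ Real.log x := by rwa [Real.le_log_iff_exp_le hx0]
  obtain ⟨y, hy, hy2⟩ := hx s hs
  refine ⟨y, hy, ?_⟩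
  have hy0 : 0 < y := hx0.trans_le hy.1
  have h5 : Real.log y ≤ 2 * ct (Real.log x) := by
    have h6 : Real.log y ≤ Real.log x + Real.log (Real.log x) := by
      rw [← Real.log_mul hx0.ne' (by linarith)]
      exact Real.log_le_log hy0 hy.2
    have h7 : Real.log (Real.log x) ≤ Real.log x := (Real.log_le_sub_one_of_pos (by linarith)).trans (by linarith)
    have h8 : 0 ≤ Real.log (Real.log x) := Real.log_nonneg hl1
    unfold ct
    linarith
  have h6 : 0 < y ^ ρ.re := Real.rpow_pos_of_pos hy0 _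
  have h9 : 0 ≤ Real.log y := hl1.trans' zero_le_one |>.trans (Real.log_le_log hx0 hy.1)
  have h10 : Real.log y ^ (m - 1) ≤ 2 ^ (m - 1) * ct (Real.log x) ^ (m - 1) := by
    rw [← mul_pow]
    exact pow_le_pow_left₀ h9 h5 _
  calc c / 2 ^ (m - 1) * (y ^ ρ.re * Real.log y ^ (m - 1)) ≤
        c / 2 ^ (m - 1) * (y ^ ρ.re * (2 ^ (m - 1) * ct (Real.log x) ^ (m - 1))) :=
        mul_le_mul_of_nonneg_left (mul_le_mul_of_nonneg_left h10 h6.le) (by positivity)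
    _ = c * (ct (Real.log x) ^ (m - 1) * y ^ ρ.re) := by field_simp
    _ ≤ _ := hy2

theorem sq_low_m (ρ : ℂ) (h0 : 1 / 2 ≤ ρ.re) (h1 : ρ.re < 1) (m : ℕ) (hm1 : 1 ≤ m)
    (hm : (m : ℕ∞) ≤ analyticOrderAt riemannZeta ρ) :
    ∃ c : ℝ, 0 < c ∧ ∀ᶠ x : ℝ in atTop, ∀ s : ℝ, s = 1 ∨ s = -1 →
      c * ((Real.log x) ^ (2 * (m - 1)) * x ^ (2 * ρ.re - 1)) ≤ ∫ y in x..(x * Real.log x), (max (s * MM y) 0 / y) ^ 2 := by
  have hp : 0 < ρ.re := by linarith
  have hcore := core_m ρ hp h1 m hm1 hm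
  have hL : ∀ᶠ t : ℝ in atTop, 1 ≤ (fun t : ℝ => t ^ (m - 1)) t := by
    filter_upwards [eventually_ge_atTop (1:ℝ)] with t ht
    exact one_le_pow₀ ht
  have hw := win_sq ρ.re h0 h1.le (fun t => t ^ (m - 1)) hL hcore
  have h := sq_low (β := ρ.re) h0 (Lf := fun t => t ^ (m - 1)) hw
  obtain ⟨c, hc, h⟩ := h
  refine ⟨c, hc, ?_⟩
  filter_upwards [h, eventually_ge_atTop (Real.exp 1)] with x hx hx1 s hs
  have hx0 : 0 < x := (Real.exp_pos 1).trans_le hx1
  have hl1 : 1 ≤ Real.log x := by rwa [Real.le_log_iff_exp_le hx0]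
  refine le_trans ?_ (hx s hs)
  refine mul_le_mul_of_nonneg_left (mul_le_mul_of_nonneg_right ?_ (Real.rpow_nonneg hx0.le _)) hc.le

  rw [← pow_mul, mul_comm (m - 1) 2]
  refine pow_le_pow_left₀ (by linarith) ?_ _
  unfold ct
  have h8 : 0 ≤ Real.log (Real.log x) := Real.log_nonneg hl1
  linarith

end

end H313.TK
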